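import Mathlib

/-!
# Lattice cubes, cubical complexes with a geometric group action, `ℓ²` harmonic chains

Every locally finite simplicial complex with vertex set `S` is, after its standard cubical
subdivision, a complex of lattice cubes in `[0, 1] ^ S`.
-/

set_option autoImplicit false

open Topology
open scoped NNReal

namespace Pool.Agent.W5h6.AM

/-- A lattice cube in `ℝ ^ S`: the product of the intervals `[base s, base s + 1]`, `s ∈ dir`, and of
the points `base s`, `s ∉ dir`. -/
@[ext] structure Cube (S : Type) where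
  base : S → ℤ
  dir : Finset S

/-- The cube as a subset of `ℝ ^ S`. -/
def Cube.carrier {S : Type} (c : Cube S) : Set (S → ℝ) :=
  {x | ∀ s, (s ∈ c.dir → (c.base s : ℝ) ≤ x s ∧ x s ≤ c.base s + 1) ∧
    (s ∉ c.dir → x s = c.base s)}

/-- The union of the cubes of `K`, with the topology of a subspace of `ℝ ^ S`. -/
def space {S : Type} (K : Set (Cube S)) : Set (S → ℝ) := ⋃ c ∈ K, c.carrier

/-- The homeomorphisms of the space of `K`. -/
abbrev Homeo {S : Type} (K : Set (Cube S)) : Type := space K ≃ₜ space K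

/-- The groups of homeomorphisms of the space of `K`. -/
abbrev Grp {S : Type} (K : Set (Cube S)) : Type := Subgroup (space K ≃ₜ space K)

/-- `g` is in the group `Γ`. -/
def InGroup {S : Type} {K : Set (Cube S)} (Γ : Grp K) (g : Homeo K) : Prop := g ∈ Γ

/-- The point `g x` of `ℝ ^ S`. -/
def at' {S : Type} {K : Set (Cube S)} (g : Homeo K) (x : space K) : S → ℝ := g x

/-- The image of the cube `c` under the map `g` of the space of `K`. -/
def img {S : Type} {K : Set (Cube S)} (g : Homeo K) (c : Cube S) : Set (S → ℝ) :=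
  {y | ∃ x : space K, x.1 ∈ c.carrier ∧ at' g x = y}

/-- The stabilizer of the cube `c`. -/
def stab {S : Type} {K : Set (Cube S)} (Γ : Grp K) (c : Cube S) : Set (Homeo K) :=
  {g | InGroup Γ g ∧ img g c = c.carrier}

variable {S : Type} [LinearOrder S]

/-- The lower and the upper face of `c` in the direction `s`. -/
def face0 (c : Cube S) (s : S) : Cube S := ⟨c.base, c.dir.erase s⟩
def face1 (c : Cube S) (s : S) : Cube S :=
  ⟨Function.update c.base s (c.base s + 1), c.dir.erase s⟩

/-- The cubes which have `c` as their lower or as their upper face in the direction `s`. -/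
def coface0 (c : Cube S) (s : S) : Cube S := ⟨c.base, insert s c.dir⟩
def coface1 (c : Cube S) (s : S) : Cube S :=
  ⟨Function.update c.base s (c.base s - 1), insert s c.dir⟩

/-- The sign of the direction `s` in a cube with the directions `D`. -/
def sgn (D : Finset S) (s : S) : ℝ := (-1) ^ (D.filter (· < s)).card

/-- The boundary of the chain `f`. -/
noncomputable def bd (f : Cube S → ℝ) (c : Cube S) : ℝ :=
  ∑ᶠ s, if s ∈ c.dir then 0 else sgn c.dir s * (f (coface1 c s) - f (coface0 c s))

/-- The coboundary of the chain `f`. -/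
def cobd (f : Cube S → ℝ) (c : Cube S) : ℝ :=
  ∑ s ∈ c.dir, sgn c.dir s * (f (face1 c s) - f (face0 c s))

/-- `f` is an `ℓ²` harmonic `i`-chain of `K`. -/
structure Harmonic (K : Set (Cube S)) (i : ℕ) (f : Cube S → ℝ) : Prop where
  supp : ∀ c, f c ≠ 0 → c ∈ K ∧ c.dir.card = i
  sq : Summable fun c => f c ^ 2
  cycle : ∀ c ∈ K, bd f c = 0
  cocycle : ∀ c ∈ K, cobd f c = 0

/-- The space of `K` is an `n`-manifold, possibly with boundary: every point has an open neighbourhood
homeomorphic to an open subset of `[0, ∞) ^ n`. -/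
def IsMfd (n : ℕ) (K : Set (Cube S)) : Prop :=
  ∀ x : space K, ∃ e : OpenPartialHomeomorph (space K) (Fin n → ℝ≥0), x ∈ e.source

/-- The elements of `Γ` permute the cubes. -/
def Permutes (K : Set (Cube S)) (Γ : Grp K) : Prop :=
  ∀ g, InGroup Γ g → ∀ c ∈ K, ∃ c' ∈ K, img g c = c'.carrier

/-- There are finitely many orbits of cubes. -/
def FinOrbits (K : Set (Cube S)) (Γ : Grp K) : Prop :=
  ∃ F : Set (Cube S), F.Finite ∧ F ⊆ K ∧ ∀ c ∈ K, ∃ c₀ ∈ F, ∃ g, InGroup Γ g ∧ img g c₀ = c.carrier

/-- `K` is a locally finite complex of lattice cubes whose space is a contractible `n`-manifold (possibly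
with boundary), and the group `Γ` of homeomorphisms permutes the cubes and acts geometrically: the
stabilizers of the cubes are finite, and there are finitely many orbits of cubes. -/
structure GMan (n : ℕ) (K : Set (Cube S)) (Γ : Grp K) : Prop where
  faces : ∀ c ∈ K, ∀ s ∈ c.dir, face0 c s ∈ K ∧ face1 c s ∈ K
  locFin : ∀ x ∈ space K, ∃ U ∈ 𝓝 x, {c | c ∈ K ∧ (c.carrier ∩ U).Nonempty}.Finite
  mfd : IsMfd n K
  contr : ContractibleSpace (space K)
  cubes : Permutes K Γ
  proper : ∀ c ∈ K, (stab Γ c).Finite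
  cocompact : FinOrbits K Γ

/-- The square of the norm of the projection of the basis chain at `c` to the space of the `ℓ²`
harmonic `i`-chains of `K`. -/
noncomputable def rho (K : Set (Cube S)) (i : ℕ) (c : Cube S) : ℝ :=
  sSup ({0} ∪ {q | ∃ f, Harmonic K i f ∧ (∃ d, f d ≠ 0) ∧ q = f c ^ 2 / ∑' d, f d ^ 2})

/-- `R` contains exactly one cube of each orbit of `Γ`. -/
def IsReps (K : Set (Cube S)) (Γ : Grp K) (R : Finset (Cube S)) : Prop :=
  (∀ r ∈ R, r ∈ K) ∧ ∀ c ∈ K, ∃! r, r ∈ R ∧ ∃ g, InGroup Γ g ∧ img g r = c.carrier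

/-- The `i`-th `ℓ²`-Betti number of `K` and `Γ`. -/
noncomputable def l2Betti (K : Set (Cube S)) (Γ : Grp K) (R : Finset (Cube S)) (i : ℕ) : ℝ := ∑ r ∈ R, rho K i r / (stab Γ r).ncard

/-- The number of the orbits of cubes, with the inverse orders of the stabilizers as weights. -/
noncomputable def numCubes (K : Set (Cube S)) (Γ : Grp K) (R : Finset (Cube S)) : ℝ := ∑ r ∈ R, 1 / ((stab Γ r).ncard : ℝ)

/-- The unit interval, as a complex of lattice cubes in `ℝ`. -/
def interval : Set (Cube Unit) :=
  {c | (c.dir = ∅ ∧ (c.base () = 0 ∨ c.base () = 1)) ∨ (c.dir = {()} ∧ c.base () = 0)}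

/-- The trivial group. -/
def trivialGroup {S : Type} (K : Set (Cube S)) : Grp K := ⊥

end Pool.Agent.W5h6.AM
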