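import Pool.Agent.W5h6.AM.Top

set_option autoImplicit false
set_option linter.unusedSectionVars false

open Topology
open scoped NNReal

namespace Pool.Agent.W5h6.AM

def v0 : Cube Unit := ⟨fun _ => 0, ∅⟩
def v1 : Cube Unit := ⟨fun _ => 1, ∅⟩
def ed : Cube Unit := ⟨fun _ => 0, {()}⟩

lemma interval_eq : interval = {v0, v1, ed} := by
  ext c
  simp only [interval, v0, v1, ed, Set.mem_ofPred_eq, Set.mem_insert_iff, Set.mem_singleton_iff,
    Cube.ext_iff, funext_iff]
  constructor
  · rintro (⟨h1, h2 | h2⟩ | ⟨h1, h2⟩)
    · exact Or.inl ⟨fun _ => h2, h1⟩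
    · exact Or.inr (Or.inl ⟨fun _ => h2, h1⟩)
    · exact Or.inr (Or.inr ⟨fun _ => h2, h1⟩)
  · rintro (⟨h1, h2⟩ | ⟨h1, h2⟩ | ⟨h1, h2⟩)
    · exact Or.inl ⟨h2, Or.inl (h1 ())⟩
    · exact Or.inl ⟨h2, Or.inr (h1 ())⟩
    · exact Or.inr ⟨h2, h1 ()⟩

lemma mem_interval {x : Unit → ℝ} : x ∈ space interval ↔ 0 ≤ x () ∧ x () ≤ 1 := by
  rw [mem_space, interval_eq]
  constructor
  · rintro ⟨c, hc | hc | hc, hx⟩
    · subst hc
      have := (hx ()).2 (by simp [v0])
      rw [this]; simp [v0]
    · have hc' : c = v1 := hc
      subst hc'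
      have := (hx ()).2 (by simp [v1])
      rw [this]; simp [v1]
    · have hc' : c = ed := hc
      subst hc'
      have := (hx ()).1 (by simp [ed])
      simpa [ed] using this
  · rintro ⟨h1, h2⟩
    refine ⟨ed, by simp, fun s => ⟨fun _ => ?_, fun h => absurd (by simp [ed]) h⟩⟩
    simpa [ed] using And.intro h1 h2

lemma cont_ev : Continuous fun x : space interval => x.1 () := by
  have h : Continuous fun z : space interval => (z : Unit → ℝ) := continuous_subtype_val
  exact (continuous_apply ()).comp h

/-- the chart at the points `< 1` -/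
noncomputable def chart0 : OpenPartialHomeomorph (space interval) (Fin 1 → ℝ≥0) where
  toFun x := fun _ => ⟨x.1 (), (mem_interval.1 x.2).1⟩
  invFun y := ⟨fun _ => min (y 0 : ℝ) 1, mem_interval.2 ⟨le_min (y 0).2 zero_le_one, min_le_right _ _⟩⟩
  source := {x | x.1 () < 1}
  target := {y | (y 0 : ℝ) < 1}
  map_source' x hx := hx
  map_target' y hy := by
    show min (y 0 : ℝ) 1 < 1
    exact min_lt_of_left_lt hy
  left_inv' x hx := by
    apply Subtype.ext
    funext u
    exact min_eq_left (le_of_lt hx)
  right_inv' y hy := by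
    funext i
    have : i = 0 := Subsingleton.elim _ _
    subst this
    apply NNReal.eq
    exact min_eq_left (le_of_lt hy)
  open_source := isOpen_lt cont_ev continuous_const
  open_target := isOpen_lt (by fun_prop) continuous_const
  continuousOn_toFun := by
    apply Continuous.continuousOn
    exact continuous_pi fun _ => Continuous.subtype_mk cont_ev _
  continuousOn_invFun := by
    apply Continuous.continuousOn
    exact Continuous.subtype_mk (continuous_pi fun _ => by fun_prop) _

/-- the chart at the points `> 0` -/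
noncomputable def chart1 : OpenPartialHomeomorph (space interval) (Fin 1 → ℝ≥0) where
  toFun x := fun _ => ⟨1 - x.1 (), sub_nonneg.2 (mem_interval.1 x.2).2⟩
  invFun y := ⟨fun _ => 1 - min (y 0 : ℝ) 1, mem_interval.2
    ⟨sub_nonneg.2 (min_le_right _ _), sub_le_self _ (le_min (y 0).2 zero_le_one)⟩⟩
  source := {x | 0 < x.1 ()}
  target := {y | (y 0 : ℝ) < 1}
  map_source' x hx := by
    show 1 - x.1 () < 1
    have : 0 < x.1 () := hx
    linarith
  map_target' y hy := by
    show 0 < 1 - min (y 0 : ℝ) 1
    have : min (y 0 : ℝ) 1 < 1 := min_lt_of_left_lt hy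
    linarith
  left_inv' x hx := by
    apply Subtype.ext
    funext u
    show 1 - min (1 - x.1 ()) 1 = x.1 u
    have h := (mem_interval.1 x.2).1
    rw [min_eq_left (by linarith)]
    ring
  right_inv' y hy := by
    funext i
    have : i = 0 := Subsingleton.elim _ _
    subst this
    apply NNReal.eq
    show 1 - (1 - min (y 0 : ℝ) 1) = y 0
    rw [min_eq_left (le_of_lt hy)]
    ring
  open_source := isOpen_lt continuous_const cont_ev
  open_target := isOpen_lt (by fun_prop) continuous_const
  continuousOn_toFun := by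
    apply Continuous.continuousOn
    exact continuous_pi fun _ => Continuous.subtype_mk (continuous_const.sub cont_ev) _
  continuousOn_invFun := by
    apply Continuous.continuousOn
    exact Continuous.subtype_mk (continuous_pi fun _ => by fun_prop) _

theorem gman_interval : GMan 1 interval ⊥ := by
  refine ⟨?_, ?_, ?_, ?_, ?_, ?_, ?_⟩
  · intro c hc s hs
    have hc' : c ∈ ({v0, v1, ed} : Set (Cube Unit)) := interval_eq ▸ hc
    rcases hc' with h | h | h
    · subst h; simp [v0] at hs
    · have h' : c = v1 := h
      subst h'; simp [v1] at hs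
    · have h' : c = ed := h
      subst h'
      have hs' : s = () := rfl
      subst hs'
      constructor
      · left; simp [face0, ed]
      · left; simp [face1, ed]
  · intro x _
    refine ⟨Set.univ, Filter.univ_mem, ?_⟩
    have : (interval : Set (Cube Unit)).Finite := by rw [interval_eq]; exact Set.toFinite _
    exact this.subset fun c hc => hc.1
  · intro x
    by_cases h : x.1 () < 1
    · exact ⟨chart0, h⟩
    · refine ⟨chart1, ?_⟩
      show 0 < x.1 ()
      linarith [not_lt.1 h]
  · have hconv : Convex ℝ (space interval) := by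
      have : space interval = {x : Unit → ℝ | 0 ≤ x () ∧ x () ≤ 1} := by
        ext x; exact mem_interval
      rw [this]
      intro x hx y hy a b ha hb hab
      have h1 : (a • x + b • y) () = a * x () + b * y () := rfl
      refine ⟨?_, ?_⟩
      · rw [h1]; exact add_nonneg (mul_nonneg ha hx.1) (mul_nonneg hb hy.1)
      · rw [h1]
        nlinarith [mul_le_mul_of_nonneg_left hx.2 ha, mul_le_mul_of_nonneg_left hy.2 hb]
    exact hconv.contractibleSpace ⟨fun _ => 0, mem_interval.2 (by norm_num)⟩
  · intro g hg c hc
    have hg' : g = 1 := Subgroup.mem_bot.1 hg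
    subst hg'
    refine ⟨c, hc, ?_⟩
    ext y
    constructor
    · rintro ⟨x, hx, rfl⟩; exact hx
    · intro hy; exact ⟨⟨y, mem_space.2 ⟨c, hc, hy⟩⟩, hy, rfl⟩
  · intro c _
    apply (Set.finite_singleton (1 : space interval ≃ₜ space interval)).subset
    rintro g ⟨hg, _⟩
    exact Subgroup.mem_bot.1 hg
  · refine ⟨interval, by rw [interval_eq]; exact Set.toFinite _, subset_rfl, ?_⟩
    intro c hc
    refine ⟨c, hc, 1, Subgroup.mem_bot.2 rfl, ?_⟩
    ext y
    constructor
    · rintro ⟨x, hx, rfl⟩; exact hx
    · intro hy; exact ⟨⟨y, mem_space.2 ⟨c, hc, hy⟩⟩, hy, rfl⟩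

/-- the constant 0-chain on the interval -/
noncomputable def onec (c : Cube Unit) : ℝ :=
  open Classical in if c = v0 ∨ c = v1 then 1 else 0

lemma v0_ne_v1 : v0 ≠ v1 := by
  intro h
  have := congrFun (congrArg Cube.base h) ()
  simp [v0, v1] at this

lemma onec_zero {c : Cube Unit} (h : c.dir ≠ ∅) : onec c = 0 := by
  unfold onec
  rw [if_neg]
  rintro (rfl | rfl)
  · exact h rfl
  · exact h rfl

lemma hasSum_onec : HasSum (fun c => onec c ^ 2) 2 := by
  classical
  have h : ∀ c ∉ ({v0, v1} : Finset (Cube Unit)), onec c ^ 2 = 0 := by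
    intro c hc
    simp only [Finset.mem_insert, Finset.mem_singleton] at hc
    unfold onec
    rw [if_neg hc]; norm_num
  have h2 : HasSum (fun c => onec c ^ 2) (∑ c ∈ ({v0, v1} : Finset (Cube Unit)), onec c ^ 2) :=
    hasSum_sum_of_ne_finset_zero h
  rw [Finset.sum_pair v0_ne_v1] at h2
  have e : onec v0 ^ 2 + onec v1 ^ 2 = 2 := by simp [onec]; norm_num
  rwa [e] at h2

theorem harmonic_onec : Harmonic interval 0 onec := by
  refine ⟨?_, hasSum_onec.summable, ?_, ?_⟩
  · intro c hc
    have hc' : c = v0 ∨ c = v1 := by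
      by_contra hcon
      apply hc
      unfold onec
      rw [if_neg hcon]
    rw [interval_eq]
    rcases hc' with rfl | rfl
    · exact ⟨by simp, rfl⟩
    · exact ⟨by simp, rfl⟩
  · intro c _
    unfold bd
    rw [finsum_eq_zero_of_forall_eq_zero]
    intro s
    rw [onec_zero (c := coface1 c s) (Finset.insert_ne_empty _ _),
      onec_zero (c := coface0 c s) (Finset.insert_ne_empty _ _)]
    simp
  · intro c hc
    rw [interval_eq] at hc
    rcases hc with h | h | h
    · subst h; simp [cobd, v0]
    · have h' : c = v1 := h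
      subst h'; simp [cobd, v1]
    · have h' : c = ed := h
      subst h'
      have e1 : face1 ed () = v1 := by
        ext s
        · simp [face1, ed, v1]
        · simp [face1, ed, v1]
      have e0 : face0 ed () = v0 := by
        ext s
        · simp [face0, ed, v0]
        · simp [face0, ed, v0]
      have : cobd onec ed = sgn ed.dir () * (onec (face1 ed ()) - onec (face0 ed ())) := by
        unfold cobd
        show ∑ s ∈ ({()} : Finset Unit), _ = _
        rw [Finset.sum_singleton]
      rw [this, e1, e0]
      simp [onec]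

end Pool.Agent.W5h6.AM
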