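import Pool.Agent.W5h6.AM.Reps

set_option autoImplicit false
set_option linter.unusedSectionVars false

open Topology

namespace Pool.Agent.W5h6.AM

/-- A class of complexes with a group action. -/
abbrev GClass := (S : Type) → [LinearOrder S] → (K : Set (Cube S)) → Grp K → Prop

/-- The class `P` is closed under products. -/
def ProdClosed (P : GClass) : Prop :=
  ∀ (S T : Type) [LinearOrder S] [LinearOrder T] (K : Set (Cube S)) (L : Set (Cube T))
    (Γ : Grp K) (Δ : Grp L) (Λ : Grp (prod K L)),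
    P S K Γ → P T L Δ → IsProd Γ Δ Λ → P (S ⊕ₗ T) (prod K L) Λ

/-- The reduced `ℓ²`-homology of the `n`-dimensional members of `P` vanishes above the degree
`n / 2`. -/
def VanishAbove (P : GClass) (n : ℕ) : Prop :=
  ∀ (S : Type) [LinearOrder S] (K : Set (Cube S)) (Γ : Grp K),
    GMan n K Γ → P S K Γ → ∀ i : ℕ, n < 2 * i → ∀ f, Harmonic K i f → ∀ c, f c = 0

/-- For the `n`-dimensional members of `P`, the `ℓ²`-Betti numbers in the degrees
`i ≥ (1 / 2 + δ) n` are at most `δ ^ n` times the number of the cubes. -/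
def Weak (P : GClass) (δ : ℝ) (n : ℕ) : Prop :=
  ∀ (S : Type) [LinearOrder S] (K : Set (Cube S)) (Γ : Grp K),
    GMan n K Γ → P S K Γ → ∀ R, IsReps K Γ R → ∀ i : ℕ, (1 / 2 + δ) * n ≤ i →
      l2Betti K Γ R i ≤ δ ^ n * numCubes K Γ R

/-- For the `(2 i - 1)`-dimensional members of `P`, the `i`-th `ℓ²`-Betti number is at most
`δ ^ i` times the number of the cubes. -/
def WeakFirst (P : GClass) (δ : ℝ) (i : ℕ) : Prop :=
  ∀ (S : Type) [LinearOrder S] (K : Set (Cube S)) (Γ : Grp K),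
    GMan (2 * i - 1) K Γ → P S K Γ → ∀ R, IsReps K Γ R →
      l2Betti K Γ R i ≤ δ ^ i * numCubes K Γ R

/-- The manifolds without boundary. -/
def NoBoundary : GClass := fun _ _ K _ =>
  ∃ n : ℕ, ∀ x : space K, ∃ e : OpenPartialHomeomorph (space K) (Fin n → ℝ), x ∈ e.source

theorem prodClosed_noBoundary : ProdClosed NoBoundary := by
  rintro S T _ _ K L Γ Δ Λ ⟨n, hn⟩ ⟨m, hm⟩ -
  refine ⟨n + m, fun z => ?_⟩
  obtain ⟨e1, h1⟩ := hn (Phi K L z).1
  obtain ⟨e2, h2⟩ := hm (Phi K L z).2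
  exact ⟨((Phi K L).transOpenPartialHomeomorph (e1.prod e2)).transHomeomorph
    (Fin.appendHomeomorph n m), h1, h2⟩

/-- The class `P` has a 2-dimensional member with a nonzero `ℓ²` harmonic `1`-chain. -/
def HasSurface (P : GClass) : Prop :=
  ∃ (S : Type) (_ : LinearOrder S) (K : Set (Cube S)) (Γ : Grp K),
    GMan 2 K Γ ∧ P S K Γ ∧ ∃ f, Harmonic K 1 f ∧ ∃ c, f c ≠ 0

variable {P : GClass}

lemma numCubes_nonneg {S : Type} [LinearOrder S] (K : Set (Cube S))
    (Γ : Subgroup (space K ≃ₜ space K)) (R : Finset (Cube S)) : 0 ≤ numCubes K Γ R :=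
  Finset.sum_nonneg fun _ _ => by positivity

/-- a member with a large `ℓ²`-Betti number -/
def Bad (P : GClass) (n i : ℕ) (q : ℝ) : Prop :=
  ∃ (S : Type) (_ : LinearOrder S) (K : Set (Cube S)) (Γ : Subgroup (space K ≃ₜ space K)),
    GMan n K Γ ∧ P S K Γ ∧ ∃ R, IsReps K Γ R ∧ 0 < numCubes K Γ R ∧
      q * numCubes K Γ R ≤ l2Betti K Γ R i

lemma bad_of_ne {S : Type} [LinearOrder S] {n i : ℕ} {K : Set (Cube S)}
    {Γ : Subgroup (space K ≃ₜ space K)} (hK : GMan n K Γ) (pK : P S K Γ) {f : Cube S → ℝ}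
    (hf : Harmonic K i f) {c : Cube S} (hc : f c ≠ 0) : ∃ q : ℝ, 0 < q ∧ q ≤ 1 ∧ Bad P n i q := by
  have hcK := (hf.supp c hc).1
  obtain ⟨R, hR, hcR⟩ := exists_reps hK hcK
  have h0 := numCubes_pos hK hR hcR
  have h1 : 0 < l2Betti K Γ R i := by
    apply Finset.sum_pos'
    · intro r _
      exact div_nonneg (rho_nonneg _ _ _) (Nat.cast_nonneg _)
    · refine ⟨c, hcR, ?_⟩
      have h2 : 0 < rho K i c := by
        refine lt_of_lt_of_le ?_ (le_rho hf hc c)
        have := hf.tsum_pos hc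
        positivity
      have h3 := ncard_stab_pos hK hcK
      have h4 : (0:ℝ) < (stab Γ c).ncard := by exact_mod_cast h3
      exact div_pos h2 h4
  refine ⟨l2Betti K Γ R i / numCubes K Γ R, div_pos h1 h0, ?_, S, inferInstance, K, Γ, hK, pK, R,
    hR, h0, ?_⟩
  · rw [div_le_one h0]
    exact l2Betti_le K Γ R i
  · rw [div_mul_cancel₀ _ h0.ne']

lemma bad_prod (hP : ProdClosed P) {n m i j : ℕ} {q r : ℝ} (hr : 0 ≤ r)
    (h1 : Bad P n i q) (h2 : Bad P m j r) : Bad P (n + m) (i + j) (q * r) := by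
  obtain ⟨S, oS, K, Γ, hK, pK, R, hR, h0, hq1⟩ := h1
  obtain ⟨T, oT, L, Δ, hL, pL, R', hR', h0', hr1⟩ := h2
  refine ⟨S ⊕ₗ T, inferInstance, prod K L, prodSub Γ Δ, gman_prod hK hL,
    hP S T K L Γ Δ _ pK pL (isProd_iff.2 rfl), prodReps R R', isReps_prod hR hR', ?_, ?_⟩
  · rw [numCubes_prod hR hR']
    exact mul_pos h0 h0'
  · rw [numCubes_prod hR hR']
    calc q * r * (numCubes K Γ R * numCubes L Δ R')
        = (q * numCubes K Γ R) * (r * numCubes L Δ R') := by ring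
      _ ≤ l2Betti K Γ R i * l2Betti L Δ R' j :=
          mul_le_mul hq1 hr1 (by positivity) (l2Betti_nonneg _ _ _ _)
      _ ≤ _ := l2Betti_prod hK hL hR hR'

lemma bad_pow (hP : ProdClosed P) {n i : ℕ} {q : ℝ} (hq : 0 ≤ q) (h : Bad P n i q) {a : ℕ}
    (ha : 1 ≤ a) : Bad P (n * a) (i * a) (q ^ a) := by
  induction a, ha using Nat.le_induction with
  | base => simpa using h
  | succ a _ ih =>
    have := bad_prod hP hq ih h
    rw [← pow_succ] at this
    exact this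

lemma bad_add (hP : ProdClosed P) {n i e j : ℕ} {q r : ℝ} (hr : 0 ≤ r)
    (h : Bad P n i q) (hg : Bad P e j r) (b : ℕ) : Bad P (n + e * b) (i + j * b) (q * r ^ b) := by
  induction b with
  | zero => simpa using h
  | succ b ih =>
    have := bad_prod hP hr ih hg
    rw [mul_assoc, ← pow_succ, add_assoc, add_assoc] at this
    exact this

lemma not_weak {n i : ℕ} {q δ : ℝ} (h : Bad P n i q) (hi : (1 / 2 + δ) * n ≤ i)
    (hq : δ ^ n < q) : ¬ Weak P δ n := by
  intro hw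
  obtain ⟨S, oS, K, Γ, hK, pK, R, hR, h0, hq1⟩ := h
  have h1 := hw S K Γ hK pK R hR i hi
  have h5 := mul_lt_mul_of_pos_right hq h0
  linarith

lemma bad_of_not_vanish {n : ℕ} (h : ¬ VanishAbove P n) :
    ∃ i : ℕ, n < 2 * i ∧ ∃ q : ℝ, 0 < q ∧ q ≤ 1 ∧ Bad P n i q := by
  unfold VanishAbove at h
  push Not at h
  obtain ⟨S, oS, K, Γ, hK, pK, i, hi, f, hf, c, hc⟩ := h
  exact ⟨i, hi, bad_of_ne hK pK hf hc⟩

lemma weak_of_vanish {n : ℕ} {δ : ℝ} (hn : 1 ≤ n) (hδ : 0 < δ) (h : VanishAbove P n) :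
    Weak P δ n := by
  intro S oS K Γ hK pK R hR i hi
  have hn' : (1:ℝ) ≤ n := by exact_mod_cast hn
  have h1 : n < 2 * i := by
    have : (n : ℝ) < 2 * i := by nlinarith
    exact_mod_cast this
  rw [l2Betti_eq_zero (h S K Γ hK pK i h1)]
  exact mul_nonneg (pow_nonneg hδ.le n) (numCubes_nonneg K Γ R)

lemma core (hP : ProdClosed P) {n₀ i₀ e j a b : ℕ} {q r δ : ℝ} (hn : 1 ≤ n₀) (hi : n₀ < 2 * i₀)
    (hq : 0 < q) (hr : 0 < r) (hr1 : r ≤ 1) (hb : Bad P n₀ i₀ q) (hg : Bad P e j r)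
    (hδ : 0 < δ) (hδq : δ < q * r) (hδn : δ * (8 * n₀) ≤ 1) (ha : 1 ≤ a) (hab : 2 * e * b ≤ a)
    (hba : b ≤ a) : ¬ Weak P δ (n₀ * a + e * b) := by
  have hn' : (1:ℝ) ≤ n₀ := by exact_mod_cast hn
  have hi' : (n₀:ℝ) + 1 ≤ 2 * i₀ := by exact_mod_cast hi
  have ha' : (1:ℝ) ≤ a := by exact_mod_cast ha
  have hab' : 2 * (e:ℝ) * b ≤ a := by exact_mod_cast hab
  have hδ8 : δ * 8 ≤ 1 := by nlinarith
  have hb' := bad_add hP hr.le (bad_pow hP hq.le hb ha) hg b
  refine not_weak hb' ?_ ?_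
  · push_cast
    have h1 : δ * (n₀ * a) ≤ a / 8 := by
      have := mul_le_mul_of_nonneg_right hδn (by positivity : (0:ℝ) ≤ a)
      linarith
    have h2 : δ * (e * b) ≤ a / 16 := by
      have h3 : δ * (e * b) ≤ δ * (a / 2) := mul_le_mul_of_nonneg_left (by linarith) hδ.le
      have h4 : δ * (a / 2) ≤ 1 / 8 * (a / 2) :=
        mul_le_mul_of_nonneg_right (by linarith) (by positivity)
      linarith
    have h5 : ((n₀:ℝ) + 1) / 2 * a ≤ i₀ * a :=
      mul_le_mul_of_nonneg_right (by linarith) (by positivity)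
    have h6 : (0:ℝ) ≤ j * b := by positivity
    nlinarith
  · have hδ1 : δ ≤ 1 := by linarith
    have hδp : δ ^ (n₀ * a + e * b) ≤ δ ^ a :=
      pow_le_pow_of_le_one hδ.le hδ1 ((Nat.le_mul_of_pos_left _ hn).trans (Nat.le_add_right _ _))
    have h1 : δ ^ a < (q * r) ^ a := pow_lt_pow_left₀ hδq hδ.le (by omega)
    have h2 : (q * r) ^ a ≤ q ^ a * r ^ b := by
      rw [mul_pow]
      exact mul_le_mul_of_nonneg_left (pow_le_pow_of_le_one hr.le hr1 hba) (pow_nonneg hq.le _)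
    linarith

/-- the multiples of every number -/
theorem multiples (hP : ProdClosed P) : (∀ n : ℕ, 1 ≤ n → VanishAbove P n) ↔
    ∀ δ : ℝ, 0 < δ → ∀ d : ℕ, 1 ≤ d → ∃ n : ℕ, 1 ≤ n ∧ d ∣ n ∧ Weak P δ n := by
  constructor
  · intro h δ hδ d hd
    exact ⟨d, hd, dvd_refl d, weak_of_vanish hd hδ (h d hd)⟩
  · intro h n₀ hn₀
    by_contra hcon
    obtain ⟨i₀, hi₀, q, hq, hq1, hb⟩ := bad_of_not_vanish hcon
    have hn₀' : (1:ℝ) ≤ n₀ := by exact_mod_cast hn₀
    set δ : ℝ := min (q * q / 2) (1 / (8 * n₀)) with hδ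
    have hδ0 : 0 < δ := lt_min (by positivity) (by positivity)
    have hqq : 0 < q * q := mul_pos hq hq
    have hδq : δ < q * q := (min_le_left _ _).trans_lt (by linarith)
    have hδn : δ * (8 * n₀) ≤ 1 := by
      rw [← le_div_iff₀ (by positivity)]
      exact min_le_right _ _
    obtain ⟨n, hn, ⟨a, rfl⟩, hw⟩ := h δ hδ0 n₀ hn₀
    have ha : 1 ≤ a := by
      rcases Nat.eq_zero_or_pos a with h0 | h0
      · subst h0; simp at hn
      · exact h0
    have := core hP (a := a) (b := 0) hn₀ hi₀ hq hq hq1 hb hb hδ0 hδq hδn ha (by simp) (by simp)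
    rw [mul_zero, add_zero] at this
    exact this hw

/-- large dimensions, with the interval -/
theorem infinitely_many (hP : ProdClosed P) (hI : P Unit interval (trivialGroup interval)) :
    (∀ n : ℕ, 1 ≤ n → VanishAbove P n) ↔
      ∀ δ : ℝ, 0 < δ → ∀ N : ℕ, ∃ n : ℕ, N ≤ n ∧ Weak P δ n := by
  constructor
  · intro h δ hδ N
    exact ⟨N + 1, by omega, weak_of_vanish (by omega) hδ (h _ (by omega))⟩
  · intro h n₀ hn₀
    by_contra hcon
    obtain ⟨i₀, hi₀, q, hq, hq1, hb⟩ := bad_of_not_vanish hcon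
    obtain ⟨r, hr, hr1, hg⟩ := bad_of_ne (P := P) gman_interval hI harmonic_onec
      (c := v0) (by simp [onec])
    have hn₀' : (1:ℝ) ≤ n₀ := by exact_mod_cast hn₀
    set δ : ℝ := min (q * r / 2) (1 / (8 * n₀)) with hδ
    have hδ0 : 0 < δ := lt_min (by positivity) (by positivity)
    have hqr : 0 < q * r := mul_pos hq hr
    have hδq : δ < q * r := (min_le_left _ _).trans_lt (by linarith)
    have hδn : δ * (8 * n₀) ≤ 1 := by
      rw [← le_div_iff₀ (by positivity)]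
      exact min_le_right _ _
    obtain ⟨n, hn, hw⟩ := h δ hδ0 (2 * n₀ * n₀)
    have hdm := Nat.div_add_mod n n₀
    have hlt : n % n₀ < n₀ := Nat.mod_lt _ hn₀
    have ha : 2 * n₀ ≤ n / n₀ := by
      rw [Nat.le_div_iff_mul_le hn₀]
      exact hn
    generalize n / n₀ = a at hdm ha
    generalize n % n₀ = b at hdm hlt
    subst hdm
    have := core hP (a := a) (b := b) hn₀ hi₀ hq hr hr1 hb hg hδ0 hδq hδn (by omega) (by omega)
      (by omega)
    rw [one_mul] at this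
    exact this hw

/-- even dimensions, with a surface -/
theorem even_dims (hP : ProdClosed P) (hS : HasSurface P) :
    (∀ n : ℕ, 1 ≤ n → VanishAbove P n) ↔
      ∀ δ : ℝ, 0 < δ → ∀ N : ℕ, ∃ n : ℕ, N ≤ n ∧ Even n ∧ Weak P δ n := by
  constructor
  · intro h δ hδ N
    exact ⟨2 * (N + 1), by omega, even_two_mul _, weak_of_vanish (by omega) hδ (h _ (by omega))⟩
  · intro h n₀ hn₀
    by_contra hcon
    obtain ⟨i₀, hi₀, q, hq, hq1, hb⟩ := bad_of_not_vanish hcon
    obtain ⟨S, oS, K, Γ, hK, pK, f, hf, c, hc⟩ := hS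
    obtain ⟨r, hr, hr1, hg⟩ := bad_of_ne (P := P) hK pK hf hc
    have hb2 := bad_pow hP hq.le hb (a := 2) (by norm_num)
    have hq2 : 0 < q ^ 2 := by positivity
    have hn₀' : (1:ℝ) ≤ n₀ := by exact_mod_cast hn₀
    set δ : ℝ := min (q ^ 2 * r / 2) (1 / (16 * n₀)) with hδ
    have hδ0 : 0 < δ := lt_min (by positivity) (by positivity)
    have hqr : 0 < q ^ 2 * r := mul_pos hq2 hr
    have hδq : δ < q ^ 2 * r := (min_le_left _ _).trans_lt (by linarith)
    have hδn : δ * (8 * ((n₀ * 2 : ℕ) : ℝ)) ≤ 1 := by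
      have h1 : δ * (16 * n₀) ≤ 1 := by
        rw [← le_div_iff₀ (by positivity)]
        exact min_le_right _ _
      push_cast
      linarith
    obtain ⟨n, hn, hev, hw⟩ := h δ hδ0 (4 * n₀ * (n₀ * 2))
    obtain ⟨m, rfl⟩ := hev
    have hdm := Nat.div_add_mod m n₀
    have hlt : m % n₀ < n₀ := Nat.mod_lt _ hn₀
    have ha : 4 * n₀ ≤ m / n₀ := by
      rw [Nat.le_div_iff_mul_le hn₀]
      nlinarith
    generalize m / n₀ = a at hdm ha
    generalize m % n₀ = b at hdm hlt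
    subst hdm
    have := core hP (a := a) (b := b) (by omega) (by omega) hq2 hr hr1 hb2 hg hδ0 hδq hδn
      (by omega) (by omega) (by omega)
    rw [show n₀ * 2 * a + 2 * b = n₀ * a + b + (n₀ * a + b) by ring] at this
    exact this hw

/-- the first degree above the middle -/
theorem first_degree (hP : ProdClosed P) (hI : P Unit interval (trivialGroup interval)) :
    (∀ n : ℕ, 1 ≤ n → VanishAbove P n) ↔
      ∀ δ : ℝ, 0 < δ → ∀ d : ℕ, 1 ≤ d → ∃ i : ℕ, 1 ≤ i ∧ d ∣ i ∧ WeakFirst P δ i := by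
  constructor
  · intro h δ hδ d hd
    refine ⟨d, hd, dvd_refl d, fun S oS K Γ hK pK R hR => ?_⟩
    rw [l2Betti_eq_zero (h (2 * d - 1) (by omega) S K Γ hK pK d (by omega))]
    exact mul_nonneg (pow_nonneg hδ.le d) (numCubes_nonneg K Γ R)
  · intro h n₀ hn₀
    by_contra hcon
    obtain ⟨i₀, hi₀, q, hq, hq1, hb⟩ := bad_of_not_vanish hcon
    obtain ⟨r, hr, hr1, hg⟩ := bad_of_ne (P := P) gman_interval hI harmonic_onec
      (c := v0) (by simp [onec])
    have hX : 0 < q * r ^ (2 * i₀) := by positivity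
    have hX1 : q * r ^ (2 * i₀) ≤ 1 := mul_le_one₀ hq1 (by positivity) (pow_le_one₀ hr.le hr1)
    obtain ⟨i, hi, ⟨a, rfl⟩, hw⟩ := h (q * r ^ (2 * i₀) / 2) (by positivity) i₀ (by omega)
    have ha : 1 ≤ a := by
      rcases Nat.eq_zero_or_pos a with h0 | h0
      · subst h0; simp at hi
      · exact h0
    have hle : n₀ * a + 1 ≤ 2 * (i₀ * a) := by
      have h1 : (n₀ + 1) * a ≤ 2 * i₀ * a := Nat.mul_le_mul_right a hi₀
      rw [add_mul, one_mul, mul_assoc] at h1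
      omega
    have hb' := bad_add hP hr.le (bad_pow hP hq.le hb ha) hg (2 * (i₀ * a) - 1 - n₀ * a)
    rw [one_mul, zero_mul, add_zero,
      show n₀ * a + (2 * (i₀ * a) - 1 - n₀ * a) = 2 * (i₀ * a) - 1 by omega] at hb'
    obtain ⟨S, oS, K, Γ, hK, pK, R, hR, h0, hq3⟩ := hb'
    have h1 := hw S K Γ hK pK R hR
    have h2 : (q * r ^ (2 * i₀) / 2) ^ (i₀ * a) < q ^ a * r ^ (2 * (i₀ * a) - 1 - n₀ * a) := by
      calc (q * r ^ (2 * i₀) / 2) ^ (i₀ * a) ≤ (q * r ^ (2 * i₀) / 2) ^ a :=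
            pow_le_pow_of_le_one (by positivity) (by linarith)
              (Nat.le_mul_of_pos_left _ (by omega))
        _ < (q * r ^ (2 * i₀)) ^ a := pow_lt_pow_left₀ (by linarith) (by positivity) (by omega)
        _ = q ^ a * r ^ (2 * (i₀ * a)) := by rw [mul_pow, ← pow_mul, mul_assoc 2 i₀ a]
        _ ≤ _ := mul_le_mul_of_nonneg_left
              (pow_le_pow_of_le_one hr.le hr1 (by omega)) (pow_nonneg hq.le _)
    have h5 := mul_lt_mul_of_pos_right h2 h0
    linarith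

end Pool.Agent.W5h6.AM
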