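import Pool.Agent.W5h6.AM.Defs

set_option autoImplicit false
set_option linter.unusedSectionVars false

open Topology
open scoped NNReal

namespace Pool.Agent.W5h6.AM

variable {S T : Type} [LinearOrder S] [LinearOrder T]

/-- the embeddings of the index types -/
def il (s : S) : S ⊕ₗ T := toLex (Sum.inl s)
def ir (t : T) : S ⊕ₗ T := toLex (Sum.inr t)

lemma il_inj : Function.Injective (il : S → S ⊕ₗ T) := fun a b h => by
  simpa [il] using h
lemma ir_inj : Function.Injective (ir : T → S ⊕ₗ T) := fun a b h => by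
  simpa [ir] using h

lemma il_ne_ir (s : S) (t : T) : (il s : S ⊕ₗ T) ≠ ir t := by simp [il, ir]
lemma ir_ne_il (s : S) (t : T) : (ir t : S ⊕ₗ T) ≠ il s := by simp [il, ir]

lemma cases_lex (p : S ⊕ₗ T) : (∃ s, p = il s) ∨ ∃ t, p = ir t := by
  rcases h : ofLex p with s | t
  · left; exact ⟨s, by rw [il, ← h, toLex_ofLex]⟩
  · right; exact ⟨t, by rw [ir, ← h, toLex_ofLex]⟩

/-- the factors of a cube -/
noncomputable def fst (c : Cube (S ⊕ₗ T)) : Cube S := ⟨fun s => c.base (il s), c.dir.preimage il il_inj.injOn⟩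
noncomputable def snd (c : Cube (S ⊕ₗ T)) : Cube T := ⟨fun t => c.base (ir t), c.dir.preimage ir ir_inj.injOn⟩

/-- the product of two cubes -/
def mk (c : Cube S) (d : Cube T) : Cube (S ⊕ₗ T) :=
  ⟨fun p => Sum.elim c.base d.base (ofLex p), (c.dir.disjSum d.dir).map toLex.toEmbedding⟩

lemma mem_fst (c : Cube (S ⊕ₗ T)) (s : S) : s ∈ (fst c).dir ↔ il s ∈ c.dir := by simp [fst]
lemma mem_snd (c : Cube (S ⊕ₗ T)) (t : T) : t ∈ (snd c).dir ↔ ir t ∈ c.dir := by simp [snd]

lemma fst_mk (c : Cube S) (d : Cube T) : fst (mk c d) = c := by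
  ext s
  · simp [fst, mk, il]
  · simp [fst, mk, il]

lemma snd_mk (c : Cube S) (d : Cube T) : snd (mk c d) = d := by
  ext s
  · simp [snd, mk, ir]
  · simp [snd, mk, ir]

lemma mk_fst_snd (c : Cube (S ⊕ₗ T)) : mk (fst c) (snd c) = c := by
  ext p
  · rcases cases_lex p with ⟨s, rfl⟩ | ⟨t, rfl⟩ <;> simp [fst, snd, mk, il, ir]
  · rcases cases_lex p with ⟨s, rfl⟩ | ⟨t, rfl⟩ <;> simp [fst, snd, mk, il, ir]

/-- the cubes of the product -/
noncomputable def cubeEquiv : Cube (S ⊕ₗ T) ≃ Cube S × Cube T where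
  toFun c := (fst c, snd c)
  invFun x := mk x.1 x.2
  left_inv c := mk_fst_snd c
  right_inv x := by
    show (fst (mk x.1 x.2), snd (mk x.1 x.2)) = x
    rw [fst_mk, snd_mk]

/-- the product of two complexes -/
def prod (K : Set (Cube S)) (L : Set (Cube T)) : Set (Cube (S ⊕ₗ T)) :=
  {c | fst c ∈ K ∧ snd c ∈ L}

lemma mk_mem {K : Set (Cube S)} {L : Set (Cube T)} {c : Cube S} {d : Cube T} (hc : c ∈ K)
    (hd : d ∈ L) : mk c d ∈ prod K L := by
  refine ⟨?_, ?_⟩
  · rw [fst_mk]; exact hc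
  · rw [snd_mk]; exact hd

lemma dir_eq (c : Cube (S ⊕ₗ T)) :
    c.dir = ((fst c).dir.disjSum (snd c).dir).map toLex.toEmbedding := by
  conv_lhs => rw [← mk_fst_snd c]
  rfl

lemma sum_dir (c : Cube (S ⊕ₗ T)) (F : S ⊕ₗ T → ℝ) :
    ∑ p ∈ c.dir, F p = ∑ s ∈ (fst c).dir, F (il s) + ∑ t ∈ (snd c).dir, F (ir t) := by
  rw [dir_eq c, Finset.sum_map, Finset.sum_disjSum]
  rfl

lemma card_dir (c : Cube (S ⊕ₗ T)) : c.dir.card = (fst c).dir.card + (snd c).dir.card := by
  conv_lhs => rw [dir_eq c]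
  rw [Finset.card_map, Finset.card_disjSum]

lemma sgn_il (c : Cube (S ⊕ₗ T)) (s : S) : sgn c.dir (il s) = sgn (fst c).dir s := by
  unfold sgn
  congr 1
  rw [← Finset.card_map (⟨il, il_inj⟩ : S ↪ S ⊕ₗ T) (s := (fst c).dir.filter (· < s))]
  congr 1
  ext p
  rcases cases_lex p with ⟨s', rfl⟩ | ⟨t, rfl⟩
  · simp only [Finset.mem_filter, Finset.mem_map, Function.Embedding.coeFn_mk, mem_fst]
    constructor
    · rintro ⟨h1, h2⟩
      exact ⟨s', ⟨h1, by simpa [il] using h2⟩, rfl⟩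
    · rintro ⟨a, ⟨h1, h2⟩, h3⟩
      have := il_inj h3
      subst this
      exact ⟨h1, by simpa [il] using h2⟩
  · simp only [Finset.mem_filter, Finset.mem_map, Function.Embedding.coeFn_mk, mem_fst]
    constructor
    · rintro ⟨_, h2⟩
      exact absurd h2 (by simp [il, ir])
    · rintro ⟨a, _, h3⟩
      exact absurd h3 (il_ne_ir _ _)

lemma sgn_ir (c : Cube (S ⊕ₗ T)) (t : T) :
    sgn c.dir (ir t) = (-1) ^ (fst c).dir.card * sgn (snd c).dir t := by
  unfold sgn
  rw [← pow_add]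
  congr 1
  have : c.dir.filter (· < ir t) =
      ((fst c).dir.disjSum ((snd c).dir.filter (· < t))).map toLex.toEmbedding := by
    ext p
    rcases cases_lex p with ⟨s', rfl⟩ | ⟨t', rfl⟩
    · rw [Finset.mem_filter]
      simp [il, ir, fst]
    · rw [Finset.mem_filter]
      simp [ir, snd]
  rw [this, Finset.card_map, Finset.card_disjSum]

lemma fst_face0_il (c : Cube (S ⊕ₗ T)) (s : S) : fst (face0 c (il s)) = face0 (fst c) s := by
  ext a
  · rfl
  · simp [fst, face0, il_inj.eq_iff]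
lemma snd_face0_il (c : Cube (S ⊕ₗ T)) (s : S) : snd (face0 c (il s)) = snd c := by
  ext a
  · rfl
  · simp [snd, face0, ir_ne_il]
lemma fst_face0_ir (c : Cube (S ⊕ₗ T)) (t : T) : fst (face0 c (ir t)) = fst c := by
  ext a
  · rfl
  · simp [fst, face0, il_ne_ir]
lemma snd_face0_ir (c : Cube (S ⊕ₗ T)) (t : T) : snd (face0 c (ir t)) = face0 (snd c) t := by
  ext a
  · rfl
  · simp [snd, face0, ir_inj.eq_iff]

lemma up_il (b : S ⊕ₗ T → ℤ) (s a : S) (v : ℤ) :
    Function.update b (il s) v (il a) = Function.update (fun x => b (il x)) s v a := by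
  by_cases h : a = s
  · subst h; simp
  · rw [Function.update_of_ne h, Function.update_of_ne (fun h' => h (il_inj h'))]
lemma up_ir (b : S ⊕ₗ T → ℤ) (s a : T) (v : ℤ) :
    Function.update b (ir s) v (ir a) = Function.update (fun x => b (ir x)) s v a := by
  by_cases h : a = s
  · subst h; simp
  · rw [Function.update_of_ne h, Function.update_of_ne (fun h' => h (ir_inj h'))]
lemma up_il_ir (b : S ⊕ₗ T → ℤ) (s : S) (a : T) (v : ℤ) :
    Function.update b (il s) v (ir a) = b (ir a) := Function.update_of_ne (ir_ne_il _ _) _ _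
lemma up_ir_il (b : S ⊕ₗ T → ℤ) (s : T) (a : S) (v : ℤ) :
    Function.update b (ir s) v (il a) = b (il a) := Function.update_of_ne (il_ne_ir _ _) _ _

lemma fst_face1_il (c : Cube (S ⊕ₗ T)) (s : S) : fst (face1 c (il s)) = face1 (fst c) s := by
  ext a
  · exact up_il _ _ _ _
  · simp [fst, face1, il_inj.eq_iff]
lemma snd_face1_il (c : Cube (S ⊕ₗ T)) (s : S) : snd (face1 c (il s)) = snd c := by
  ext a
  · exact up_il_ir c.base s a (c.base (il s) + 1)
  · simp [snd, face1, ir_ne_il]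
lemma fst_face1_ir (c : Cube (S ⊕ₗ T)) (t : T) : fst (face1 c (ir t)) = fst c := by
  ext a
  · exact up_ir_il c.base t a (c.base (ir t) + 1)
  · simp [fst, face1, il_ne_ir]
lemma snd_face1_ir (c : Cube (S ⊕ₗ T)) (t : T) : snd (face1 c (ir t)) = face1 (snd c) t := by
  ext a
  · exact up_ir _ _ _ _
  · simp [snd, face1, ir_inj.eq_iff]

lemma fst_coface0_il (c : Cube (S ⊕ₗ T)) (s : S) : fst (coface0 c (il s)) = coface0 (fst c) s := by
  ext a
  · rfl
  · simp [fst, coface0, il_inj.eq_iff]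
lemma snd_coface0_il (c : Cube (S ⊕ₗ T)) (s : S) : snd (coface0 c (il s)) = snd c := by
  ext a
  · rfl
  · simp [snd, coface0, ir_ne_il]
lemma fst_coface0_ir (c : Cube (S ⊕ₗ T)) (t : T) : fst (coface0 c (ir t)) = fst c := by
  ext a
  · rfl
  · simp [fst, coface0, il_ne_ir]
lemma snd_coface0_ir (c : Cube (S ⊕ₗ T)) (t : T) : snd (coface0 c (ir t)) = coface0 (snd c) t := by
  ext a
  · rfl
  · simp [snd, coface0, ir_inj.eq_iff]
lemma fst_coface1_il (c : Cube (S ⊕ₗ T)) (s : S) : fst (coface1 c (il s)) = coface1 (fst c) s := by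
  ext a
  · exact up_il _ _ _ _
  · simp [fst, coface1, il_inj.eq_iff]
lemma snd_coface1_il (c : Cube (S ⊕ₗ T)) (s : S) : snd (coface1 c (il s)) = snd c := by
  ext a
  · exact up_il_ir c.base s a (c.base (il s) - 1)
  · simp [snd, coface1, ir_ne_il]
lemma fst_coface1_ir (c : Cube (S ⊕ₗ T)) (t : T) : fst (coface1 c (ir t)) = fst c := by
  ext a
  · exact up_ir_il c.base t a (c.base (ir t) - 1)
  · simp [fst, coface1, il_ne_ir]
lemma snd_coface1_ir (c : Cube (S ⊕ₗ T)) (t : T) : snd (coface1 c (ir t)) = coface1 (snd c) t := by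
  ext a
  · exact up_ir _ _ _ _
  · simp [snd, coface1, ir_inj.eq_iff]

/-- the product of two chains -/
noncomputable def tens (f : Cube S → ℝ) (g : Cube T → ℝ) (c : Cube (S ⊕ₗ T)) : ℝ := f (fst c) * g (snd c)

lemma cobd_tens (f : Cube S → ℝ) (g : Cube T → ℝ) (c : Cube (S ⊕ₗ T)) :
    cobd (tens f g) c = cobd f (fst c) * g (snd c) +
      (-1) ^ (fst c).dir.card * (f (fst c) * cobd g (snd c)) := by
  unfold cobd
  rw [sum_dir]
  congr 1
  · rw [Finset.sum_mul]
    refine Finset.sum_congr rfl fun s _ => ?_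
    rw [sgn_il]
    unfold tens
    rw [fst_face1_il, snd_face1_il, fst_face0_il, snd_face0_il]
    ring
  · rw [Finset.mul_sum, Finset.mul_sum]
    refine Finset.sum_congr rfl fun t _ => ?_
    rw [sgn_ir]
    unfold tens
    rw [fst_face1_ir, snd_face1_ir, fst_face0_ir, snd_face0_ir]
    ring

/-- the boundary is a finite sum -/
def FinCo (f : Cube S → ℝ) (c : Cube S) : Prop :=
  {s | s ∉ c.dir ∧ (f (coface1 c s) ≠ 0 ∨ f (coface0 c s) ≠ 0)}.Finite

lemma FinCo.exists_finset {f : Cube S → ℝ} {c : Cube S} (h : FinCo f c) :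
    ∃ A : Finset S, ∀ s, s ∉ c.dir → (f (coface1 c s) ≠ 0 ∨ f (coface0 c s) ≠ 0) → s ∈ A := by
  have h' : {s | s ∉ c.dir ∧ (f (coface1 c s) ≠ 0 ∨ f (coface0 c s) ≠ 0)}.Finite := h
  exact ⟨h'.toFinset, fun s h1 h2 => h'.mem_toFinset.2 ⟨h1, h2⟩⟩

lemma bd_eq_sum {f : Cube S → ℝ} {c : Cube S} {A : Finset S}
    (hA : ∀ s, s ∉ c.dir → (f (coface1 c s) ≠ 0 ∨ f (coface0 c s) ≠ 0) → s ∈ A) :
    bd f c = ∑ s ∈ A, if s ∈ c.dir then 0 else sgn c.dir s * (f (coface1 c s) - f (coface0 c s)) := by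
  unfold bd
  apply finsum_eq_sum_of_support_subset
  intro s hs
  rw [Function.mem_support] at hs
  by_cases h : s ∈ c.dir
  · simp [h] at hs
  · rw [if_neg h] at hs
    apply hA s h
    by_contra hcon
    push Not at hcon
    rw [hcon.1, hcon.2] at hs
    simp at hs

lemma bd_tens {f : Cube S → ℝ} {g : Cube T → ℝ} {c : Cube (S ⊕ₗ T)} (hf : FinCo f (fst c))
    (hg : FinCo g (snd c)) :
    bd (tens f g) c = bd f (fst c) * g (snd c) +
      (-1) ^ (fst c).dir.card * (f (fst c) * bd g (snd c)) := by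
  classical
  obtain ⟨A, hA'⟩ := hf.exists_finset
  obtain ⟨B, hB'⟩ := hg.exists_finset
  have h := bd_eq_sum (f := tens f g) (c := c) (A := (A.disjSum B).map toLex.toEmbedding) (by
    intro p hp h
    rcases cases_lex p with ⟨s, rfl⟩ | ⟨t, rfl⟩
    · have : s ∈ A := by
        apply hA' s (by rwa [mem_fst])
        unfold tens at h
        rw [fst_coface1_il, snd_coface1_il, fst_coface0_il, snd_coface0_il] at h
        rcases h with h | h
        · exact Or.inl (left_ne_zero_of_mul h)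
        · exact Or.inr (left_ne_zero_of_mul h)
      simp [il, this]
    · have : t ∈ B := by
        apply hB' t (by rwa [mem_snd])
        unfold tens at h
        rw [fst_coface1_ir, snd_coface1_ir, fst_coface0_ir, snd_coface0_ir] at h
        rcases h with h | h
        · exact Or.inl (right_ne_zero_of_mul h)
        · exact Or.inr (right_ne_zero_of_mul h)
      simp [ir, this])
  rw [h, Finset.sum_map, Finset.sum_disjSum, bd_eq_sum hA', bd_eq_sum hB']
  congr 1
  · rw [Finset.sum_mul]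
    refine Finset.sum_congr rfl fun s _ => ?_
    show (if il s ∈ c.dir then (0:ℝ) else sgn c.dir (il s) * (tens f g (coface1 c (il s)) -
      tens f g (coface0 c (il s)))) = _
    by_cases hs : il s ∈ c.dir
    · rw [if_pos hs, if_pos ((mem_fst c s).2 hs), zero_mul]
    · rw [if_neg hs, if_neg (fun h => hs ((mem_fst c s).1 h)), sgn_il]
      unfold tens
      rw [fst_coface1_il, snd_coface1_il, fst_coface0_il, snd_coface0_il]
      ring
  · rw [Finset.mul_sum, Finset.mul_sum]
    refine Finset.sum_congr rfl fun s _ => ?_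
    show (if ir s ∈ c.dir then (0:ℝ) else sgn c.dir (ir s) * (tens f g (coface1 c (ir s)) -
      tens f g (coface0 c (ir s)))) = _
    by_cases hs : ir s ∈ c.dir
    · rw [if_pos hs, if_pos ((mem_snd c s).2 hs), mul_zero, mul_zero]
    · rw [if_neg hs, if_neg (fun h => hs ((mem_snd c s).1 h)), sgn_ir]
      unfold tens
      rw [fst_coface1_ir, snd_coface1_ir, fst_coface0_ir, snd_coface0_ir]
      ring

/-! ## carriers and local finiteness -/

lemma mem_carrier_iff (c : Cube (S ⊕ₗ T)) (x : S ⊕ₗ T → ℝ) :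
    x ∈ c.carrier ↔ (fun s => x (il s)) ∈ (fst c).carrier ∧ (fun t => x (ir t)) ∈ (snd c).carrier := by
  unfold Cube.carrier
  simp only [Set.mem_ofPred_eq, mem_fst, mem_snd]
  constructor
  · intro h
    exact ⟨fun s => h (il s), fun t => h (ir t)⟩
  · rintro ⟨h1, h2⟩ p
    rcases cases_lex p with ⟨s, rfl⟩ | ⟨t, rfl⟩
    · exact h1 s
    · exact h2 t

lemma carrier_nonempty (c : Cube S) : (fun s => (c.base s : ℝ)) ∈ c.carrier := by
  intro s
  exact ⟨fun _ => ⟨le_refl _, by linarith⟩, fun _ => rfl⟩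

lemma carrier_inj {c d : Cube S} (h : c.carrier = d.carrier) : c = d := by
  have key : ∀ c d : Cube S, c.carrier ⊆ d.carrier → (∀ s, d.base s ≤ c.base s) ∧ c.dir ⊆ d.dir := by
    intro c d h
    have h1 := h (carrier_nonempty c)
    refine ⟨fun s => ?_, fun s hs => ?_⟩
    · by_cases hs : s ∈ d.dir
      · have h2 : (d.base s : ℝ) ≤ c.base s := ((h1 s).1 hs).1
        exact_mod_cast h2
      · have := (h1 s).2 hs
        have h2 : (c.base s : ℝ) = d.base s := this
        exact le_of_eq (by exact_mod_cast h2.symm)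
    · by_contra hcon
      have h2 : Function.update (fun s => (c.base s : ℝ)) s (c.base s + 1) ∈ c.carrier := by
        intro a
        by_cases ha : a = s
        · subst ha
          simp [hs]
        · rw [Function.update_of_ne ha]
          exact carrier_nonempty c a
      have h3 := (h h2 s).2 hcon
      rw [Function.update_self] at h3
      have h4 := (h1 s).2 hcon
      have h5 : (c.base s : ℝ) = d.base s := h4
      linarith
  obtain ⟨h1, h2⟩ := key c d h.subset
  obtain ⟨h3, h4⟩ := key d c h.symm.subset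
  ext s
  · exact le_antisymm (h3 s) (h1 s)
  · exact ⟨fun h => h2 h, fun h => h4 h⟩

lemma coface0_carrier (c : Cube S) (s : S) :
    (fun a => (c.base a : ℝ)) ∈ (coface0 c s).carrier := by
  intro a
  refine ⟨fun _ => ⟨le_refl _, by show (c.base a : ℝ) ≤ c.base a + 1; linarith⟩, fun _ => rfl⟩

lemma coface1_carrier (c : Cube S) (s : S) :
    (fun a => (c.base a : ℝ)) ∈ (coface1 c s).carrier := by
  intro a
  show (a ∈ insert s c.dir → ((Function.update c.base s (c.base s - 1) a : ℤ) : ℝ) ≤ c.base a ∧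
    (c.base a : ℝ) ≤ (Function.update c.base s (c.base s - 1) a : ℤ) + 1) ∧
    (a ∉ insert s c.dir → (c.base a : ℝ) = (Function.update c.base s (c.base s - 1) a : ℤ))
  by_cases ha : a = s
  · subst ha
    rw [Function.update_self]
    push_cast
    exact ⟨fun _ => ⟨by linarith, by linarith⟩, fun h => absurd (Finset.mem_insert_self _ _) h⟩
  · rw [Function.update_of_ne ha]
    exact ⟨fun _ => ⟨le_refl _, by linarith⟩, fun _ => rfl⟩

lemma coface0_inj (c : Cube S) {s t : S} (hs : s ∉ c.dir) (h : coface0 c s = coface0 c t) :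
    s = t := by
  have h1 : insert s c.dir = insert t c.dir := congrArg Cube.dir h
  have h2 : s ∈ insert t c.dir := h1 ▸ Finset.mem_insert_self s c.dir
  rcases Finset.mem_insert.1 h2 with h3 | h3
  · exact h3
  · exact absurd h3 hs

lemma coface1_inj (c : Cube S) {s t : S} (hs : s ∉ c.dir) (h : coface1 c s = coface1 c t) :
    s = t := by
  have h1 : insert s c.dir = insert t c.dir := congrArg Cube.dir h
  have h2 : s ∈ insert t c.dir := h1 ▸ Finset.mem_insert_self s c.dir
  rcases Finset.mem_insert.1 h2 with h3 | h3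
  · exact h3
  · exact absurd h3 hs

lemma finCo_of {n i : ℕ} {K : Set (Cube S)} {Γ : Subgroup (space K ≃ₜ space K)}
    (hK : GMan n K Γ) {f : Cube S → ℝ}
    (hf : ∀ c, f c ≠ 0 → c ∈ K ∧ c.dir.card = i) {c : Cube S} (hc : c ∈ K) : FinCo f c := by
  obtain ⟨U, hU, hfin⟩ := hK.locFin (fun a => (c.base a : ℝ))
    (Set.mem_iUnion₂.2 ⟨c, hc, carrier_nonempty c⟩)
  have hxU := mem_of_mem_nhds hU
  have h1 : {s | s ∉ c.dir ∧ f (coface1 c s) ≠ 0}.Finite := by
    apply Set.Finite.of_finite_image (f := coface1 c)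
    · apply hfin.subset
      rintro _ ⟨s, ⟨_, hs⟩, rfl⟩
      exact ⟨(hf _ hs).1, _, coface1_carrier c s, hxU⟩
    · intro s hs t _ h
      exact coface1_inj c hs.1 h
  have h2 : {s | s ∉ c.dir ∧ f (coface0 c s) ≠ 0}.Finite := by
    apply Set.Finite.of_finite_image (f := coface0 c)
    · apply hfin.subset
      rintro _ ⟨s, ⟨_, hs⟩, rfl⟩
      exact ⟨(hf _ hs).1, _, coface0_carrier c s, hxU⟩
    · intro s hs t _ h
      exact coface0_inj c hs.1 h
  apply (h1.union h2).subset
  rintro s ⟨hs, h | h⟩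
  · exact Or.inl ⟨hs, h⟩
  · exact Or.inr ⟨hs, h⟩

theorem harmonic_tens {n m i j : ℕ} {K : Set (Cube S)} {L : Set (Cube T)}
    {Γ : Subgroup (space K ≃ₜ space K)} {Δ : Subgroup (space L ≃ₜ space L)} (hK : GMan n K Γ)
    (hL : GMan m L Δ) {f : Cube S → ℝ} {g : Cube T → ℝ} (hf : Harmonic K i f)
    (hg : Harmonic L j g) : Harmonic (prod K L) (i + j) (tens f g) := by
  refine ⟨fun c hc => ?_, ?_, fun c hc => ?_, fun c hc => ?_⟩
  · have h1 := hf.supp _ (left_ne_zero_of_mul hc)
    have h2 := hg.supp _ (right_ne_zero_of_mul hc)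
    exact ⟨⟨h1.1, h2.1⟩, by rw [card_dir, h1.2, h2.2]⟩
  · have h := Summable.mul_of_nonneg hf.sq hg.sq (fun _ => sq_nonneg _) (fun _ => sq_nonneg _)
    refine (cubeEquiv.summable_iff.2 h).congr fun c => ?_
    show _ = (f (fst c) * g (snd c)) ^ 2
    rw [mul_pow]
    rfl
  · rw [bd_tens (finCo_of hK hf.supp hc.1) (finCo_of hL hg.supp hc.2), hf.cycle _ hc.1,
      hg.cycle _ hc.2]
    ring
  · rw [cobd_tens, hf.cocycle _ hc.1, hg.cocycle _ hc.2]
    ring

theorem tsum_tens (f : Cube S → ℝ) (g : Cube T → ℝ) (hf : Summable fun c => f c ^ 2)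
    (hg : Summable fun c => g c ^ 2) :
    ∑' c, tens f g c ^ 2 = (∑' c, f c ^ 2) * ∑' c, g c ^ 2 := by
  rw [tsum_mul_tsum_of_summable_norm (f := fun c => f c ^ 2) (g := fun c => g c ^ 2)
    (hf.congr fun c => by rw [Real.norm_of_nonneg (sq_nonneg _)])
    (hg.congr fun c => by rw [Real.norm_of_nonneg (sq_nonneg _)])]
  rw [← cubeEquiv.tsum_eq]
  refine tsum_congr fun c => ?_
  show (f (fst c) * g (snd c)) ^ 2 = _
  rw [mul_pow]
  rfl

end Pool.Agent.W5h6.AM
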