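import Pool.Agent.W5h6.AM.Interval

set_option autoImplicit false
set_option linter.unusedSectionVars false

open Topology
open scoped NNReal

namespace Pool.Agent.W5h6.AM

variable {S T : Type} [LinearOrder S] [LinearOrder T]

/-! ## the density of the harmonic chains -/

lemma Harmonic.sq_le {K : Set (Cube S)} {i : ℕ} {f : Cube S → ℝ} (hf : Harmonic K i f)
    (c : Cube S) : f c ^ 2 ≤ ∑' d, f d ^ 2 := hf.sq.le_tsum c (fun _ _ => sq_nonneg _)

lemma Harmonic.tsum_pos {K : Set (Cube S)} {i : ℕ} {f : Cube S → ℝ} (hf : Harmonic K i f)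
    {d : Cube S} (hd : f d ≠ 0) : 0 < ∑' d, f d ^ 2 :=
  lt_of_lt_of_le (by positivity) (hf.sq_le d)

lemma rho_mem {K : Set (Cube S)} {i : ℕ} {c : Cube S} {q : ℝ}
    (hq : q ∈ {0} ∪ {q : ℝ | ∃ f, Harmonic K i f ∧ (∃ d, f d ≠ 0) ∧
      q = f c ^ 2 / ∑' d, f d ^ 2}) : 0 ≤ q ∧ q ≤ 1 := by
  rcases hq with h | ⟨f, hf, ⟨d, hd⟩, rfl⟩
  · rw [Set.mem_singleton_iff] at h
    subst h
    exact ⟨le_refl _, zero_le_one⟩
  · have h0 := hf.tsum_pos hd
    exact ⟨div_nonneg (sq_nonneg _) h0.le, by rw [div_le_one h0]; exact hf.sq_le c⟩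

lemma rho_bdd (K : Set (Cube S)) (i : ℕ) (c : Cube S) :
    BddAbove ({0} ∪ {q : ℝ | ∃ f, Harmonic K i f ∧ (∃ d, f d ≠ 0) ∧
      q = f c ^ 2 / ∑' d, f d ^ 2}) :=
  ⟨1, fun _ hq => (rho_mem hq).2⟩

lemma rho_nonneg (K : Set (Cube S)) (i : ℕ) (c : Cube S) : 0 ≤ rho K i c :=
  le_csSup (rho_bdd K i c) (Or.inl rfl)

lemma rho_le_one (K : Set (Cube S)) (i : ℕ) (c : Cube S) : rho K i c ≤ 1 :=
  csSup_le ⟨0, Or.inl rfl⟩ fun _ hq => (rho_mem hq).2

lemma le_rho {K : Set (Cube S)} {i : ℕ} {f : Cube S → ℝ} (hf : Harmonic K i f) {d : Cube S}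
    (hd : f d ≠ 0) (c : Cube S) : f c ^ 2 / ∑' d, f d ^ 2 ≤ rho K i c :=
  le_csSup (rho_bdd K i c) (Or.inr ⟨f, hf, ⟨d, hd⟩, rfl⟩)

lemma rho_mul_le {n m i j : ℕ} {K : Set (Cube S)} {L : Set (Cube T)}
    {Γ : Subgroup (space K ≃ₜ space K)} {Δ : Subgroup (space L ≃ₜ space L)} (hK : GMan n K Γ)
    (hL : GMan m L Δ) (c : Cube S) (d : Cube T) :
    rho K i c * rho L j d ≤ rho (prod K L) (i + j) (mk c d) := by
  have hX := rho_nonneg (prod K L) (i + j) (mk c d)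
  have key : ∀ q ∈ {0} ∪ {q : ℝ | ∃ f, Harmonic K i f ∧ (∃ d, f d ≠ 0) ∧
        q = f c ^ 2 / ∑' d, f d ^ 2},
      ∀ r ∈ {0} ∪ {q : ℝ | ∃ f, Harmonic L j f ∧ (∃ d, f d ≠ 0) ∧
        q = f d ^ 2 / ∑' d, f d ^ 2}, q * r ≤ rho (prod K L) (i + j) (mk c d) := by
    intro q hq r hr
    rcases hq with hq | ⟨f, hf, ⟨a, ha⟩, rfl⟩
    · rw [Set.mem_singleton_iff] at hq
      subst hq
      simpa using hX
    rcases hr with hr | ⟨g, hg, ⟨b, hb⟩, rfl⟩
    · rw [Set.mem_singleton_iff] at hr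
      subst hr
      simpa using hX
    have h := le_rho (harmonic_tens hK hL hf hg) (d := mk a b) (by
      unfold tens
      rw [fst_mk, snd_mk]
      exact mul_ne_zero ha hb) (mk c d)
    rw [tsum_tens f g hf.sq hg.sq] at h
    unfold tens at h
    rw [fst_mk, snd_mk, mul_pow] at h
    rw [div_mul_div_comm]
    exact h
  have h1 : ∀ r ∈ {0} ∪ {q : ℝ | ∃ f, Harmonic L j f ∧ (∃ d, f d ≠ 0) ∧
        q = f d ^ 2 / ∑' d, f d ^ 2}, rho K i c * r ≤ rho (prod K L) (i + j) (mk c d) := by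
    intro r hr
    rcases (rho_mem hr).1.eq_or_lt with h | h
    · rw [← h, mul_zero]
      exact hX
    · rw [← le_div_iff₀ h]
      exact csSup_le ⟨0, Or.inl rfl⟩ fun q hq => by
        rw [le_div_iff₀ h]
        exact key q hq r hr
  rcases (rho_nonneg K i c).eq_or_lt with h | h
  · rw [← h, zero_mul]
    exact hX
  · rw [mul_comm, ← le_div_iff₀ h]
    exact csSup_le ⟨0, Or.inl rfl⟩ fun r hr => by
      rw [le_div_iff₀ h, mul_comm]
      exact h1 r hr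

/-! ## orbits -/

lemma img_one {K : Set (Cube S)} {c : Cube S} (hc : c ∈ K) :
    img (1 : space K ≃ₜ space K) c = c.carrier := by
  ext y
  constructor
  · rintro ⟨x, hx, rfl⟩
    exact hx
  · intro hy
    exact ⟨⟨y, mem_space.2 ⟨c, hc, hy⟩⟩, hy, rfl⟩

lemma img_mul {K : Set (Cube S)} {g h : space K ≃ₜ space K} {c d : Cube S}
    (hg : img g c = d.carrier) : img (h * g) c = img h d := by
  ext y
  constructor
  · rintro ⟨x, hx, rfl⟩
    refine ⟨g x, ?_, rfl⟩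
    rw [← hg]
    exact ⟨x, hx, rfl⟩
  · rintro ⟨z, hz, rfl⟩
    rw [← hg] at hz
    obtain ⟨x, hx, hxz⟩ := hz
    refine ⟨x, hx, ?_⟩
    have : g x = z := Subtype.ext hxz
    rw [← this]
    rfl

lemma img_inv {K : Set (Cube S)} {g : space K ≃ₜ space K} {c d : Cube S} (hc : c ∈ K)
    (hg : img g c = d.carrier) : img g⁻¹ d = c.carrier := by
  rw [← img_mul hg, inv_mul_cancel, img_one hc]

/-- the orbit relation -/
def orb (K : Set (Cube S)) (Γ : Subgroup (space K ≃ₜ space K)) : Setoid K where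
  r a b := ∃ g ∈ Γ, img g a.1 = b.1.carrier
  iseqv := ⟨fun a => ⟨1, Γ.one_mem, img_one a.2⟩,
    fun {a b} ⟨g, hg, h⟩ => ⟨g⁻¹, Γ.inv_mem hg, img_inv a.2 h⟩,
    fun {a b c} ⟨g, hg, h⟩ ⟨g', hg', h'⟩ => ⟨g' * g, Γ.mul_mem hg' hg, by rw [img_mul h, h']⟩⟩

lemma exists_reps {n : ℕ} {K : Set (Cube S)} {Γ : Subgroup (space K ≃ₜ space K)}
    (hK : GMan n K Γ) {c : Cube S} (hc : c ∈ K) : ∃ R, IsReps K Γ R ∧ c ∈ R := by
  classical
  obtain ⟨F, hF, hFK, hco⟩ := hK.cocompact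
  have hfin : Finite (Quotient (orb K Γ)) := by
    have : Finite F := hF
    apply Finite.of_surjective (fun a : F => (Quotient.mk (orb K Γ) ⟨a.1, hFK a.2⟩))
    intro q
    induction q using Quotient.inductionOn with
    | h b =>
      obtain ⟨c₀, hc₀, g, hg, h⟩ := hco b.1 b.2
      exact ⟨⟨c₀, hc₀⟩, Quotient.sound ⟨g, hg, h⟩⟩
  have := Fintype.ofFinite (Quotient (orb K Γ))
  let rep : Quotient (orb K Γ) → K :=
    Function.update Quotient.out (Quotient.mk _ ⟨c, hc⟩) ⟨c, hc⟩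
  have hrep : ∀ q, Quotient.mk (orb K Γ) (rep q) = q := by
    intro q
    by_cases h : q = Quotient.mk _ ⟨c, hc⟩
    · subst h
      simp [rep]
    · simp [rep, Function.update_of_ne h]
  refine ⟨Finset.univ.image fun q => (rep q).1, ⟨?_, ?_⟩, ?_⟩
  · intro r hr
    obtain ⟨q, -, rfl⟩ := Finset.mem_image.1 hr
    exact (rep q).2
  · intro d hd
    refine ⟨(rep (Quotient.mk _ ⟨d, hd⟩)).1,
      ⟨Finset.mem_image_of_mem _ (Finset.mem_univ _), ?_⟩, ?_⟩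
    · exact Quotient.exact (hrep (Quotient.mk _ ⟨d, hd⟩))
    · rintro r ⟨hr, g, hg, h⟩
      obtain ⟨q, -, rfl⟩ := Finset.mem_image.1 hr
      have h2 : Quotient.mk (orb K Γ) (rep q) = Quotient.mk _ ⟨d, hd⟩ :=
        Quotient.sound ⟨g, hg, h⟩
      rw [hrep] at h2
      rw [h2]
  · refine Finset.mem_image.2 ⟨Quotient.mk _ ⟨c, hc⟩, Finset.mem_univ _, ?_⟩
    simp [rep]

lemma ncard_stab_pos {n : ℕ} {K : Set (Cube S)} {Γ : Subgroup (space K ≃ₜ space K)}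
    (hK : GMan n K Γ) {c : Cube S} (hc : c ∈ K) : 0 < (stab Γ c).ncard :=
  (Set.ncard_pos (hK.proper c hc)).2 ⟨1, Γ.one_mem, img_one hc⟩

lemma numCubes_pos {n : ℕ} {K : Set (Cube S)} {Γ : Subgroup (space K ≃ₜ space K)}
    (hK : GMan n K Γ) {R : Finset (Cube S)} (hR : IsReps K Γ R) {c : Cube S} (hc : c ∈ R) :
    0 < numCubes K Γ R := by
  apply Finset.sum_pos
  · intro r hr
    have := ncard_stab_pos hK (hR.1 r hr)
    positivity
  · exact ⟨c, hc⟩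

lemma l2Betti_nonneg (K : Set (Cube S)) (Γ : Subgroup (space K ≃ₜ space K))
    (R : Finset (Cube S)) (i : ℕ) : 0 ≤ l2Betti K Γ R i :=
  Finset.sum_nonneg fun _ _ => div_nonneg (rho_nonneg _ _ _) (Nat.cast_nonneg _)

lemma l2Betti_le (K : Set (Cube S)) (Γ : Subgroup (space K ≃ₜ space K))
    (R : Finset (Cube S)) (i : ℕ) : l2Betti K Γ R i ≤ numCubes K Γ R := by
  apply Finset.sum_le_sum
  intro r _
  exact div_le_div_of_nonneg_right (rho_le_one _ _ _) (Nat.cast_nonneg _)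

/-- l2Betti vanishes if all the harmonic chains do -/
lemma l2Betti_eq_zero {K : Set (Cube S)} {Γ : Subgroup (space K ≃ₜ space K)}
    {R : Finset (Cube S)} {i : ℕ} (h : ∀ f, Harmonic K i f → ∀ c, f c = 0) :
    l2Betti K Γ R i = 0 := by
  apply Finset.sum_eq_zero
  intro r _
  have : rho K i r = 0 := by
    refine le_antisymm (csSup_le ⟨0, Or.inl rfl⟩ fun q hq => ?_) (rho_nonneg _ _ _)
    rcases hq with hq | ⟨f, hf, ⟨d, hd⟩, rfl⟩
    · exact le_of_eq hq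
    · exact absurd (h f hf d) hd
  rw [this, zero_div]

/-! ## products -/

/-- the representatives in the product -/
noncomputable def prodReps (R : Finset (Cube S)) (R' : Finset (Cube T)) :
    Finset (Cube (S ⊕ₗ T)) := (R ×ˢ R').map cubeEquiv.symm.toEmbedding

lemma mem_prodReps {R : Finset (Cube S)} {R' : Finset (Cube T)} {c : Cube (S ⊕ₗ T)} :
    c ∈ prodReps R R' ↔ fst c ∈ R ∧ snd c ∈ R' := by
  unfold prodReps
  rw [Finset.mem_map]
  constructor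
  · rintro ⟨⟨a, b⟩, hab, rfl⟩
    rw [Finset.mem_product] at hab
    show fst (mk a b) ∈ R ∧ snd (mk a b) ∈ R'
    rw [fst_mk, snd_mk]
    exact hab
  · rintro ⟨h1, h2⟩
    exact ⟨(fst c, snd c), Finset.mem_product.2 ⟨h1, h2⟩, mk_fst_snd c⟩

lemma sum_prodReps (R : Finset (Cube S)) (R' : Finset (Cube T)) (F : Cube (S ⊕ₗ T) → ℝ) :
    ∑ c ∈ prodReps R R', F c = ∑ a ∈ R, ∑ b ∈ R', F (mk a b) := by
  unfold prodReps
  rw [Finset.sum_map, Finset.sum_product]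
  rfl

lemma isReps_prod {K : Set (Cube S)} {L : Set (Cube T)} {Γ : Subgroup (space K ≃ₜ space K)}
    {Δ : Subgroup (space L ≃ₜ space L)} {R : Finset (Cube S)} {R' : Finset (Cube T)}
    (hR : IsReps K Γ R) (hR' : IsReps L Δ R') :
    IsReps (prod K L) (prodSub Γ Δ) (prodReps R R') := by
  refine ⟨fun c hc => ?_, fun c hc => ?_⟩
  · rw [mem_prodReps] at hc
    exact ⟨hR.1 _ hc.1, hR'.1 _ hc.2⟩
  · obtain ⟨r, ⟨hr, g, hg, e1⟩, hu⟩ := hR.2 _ hc.1
    obtain ⟨r', ⟨hr', g', hg', e1'⟩, hu'⟩ := hR'.2 _ hc.2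
    refine ⟨mk r r', ⟨?_, prodHom K L (g, g'), mem_prodSub.2 ⟨g, hg, g', hg', rfl⟩, ?_⟩, ?_⟩
    · rw [mem_prodReps, fst_mk, snd_mk]
      exact ⟨hr, hr'⟩
    · rw [img_prod_eq g g' (mk r r') c (mk_mem (hR.1 _ hr) (hR'.1 _ hr')), fst_mk, snd_mk]
      exact ⟨e1, e1'⟩
    · rintro y ⟨hy, e, he, hye⟩
      obtain ⟨h, hh, h', hh', rfl⟩ := mem_prodSub.1 he
      rw [mem_prodReps] at hy
      rw [img_prod_eq h h' y c ⟨hR.1 _ hy.1, hR'.1 _ hy.2⟩] at hye
      have k1 := hu (fst y) ⟨hy.1, h, hh, hye.1⟩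
      have k2 := hu' (snd y) ⟨hy.2, h', hh', hye.2⟩
      rw [← mk_fst_snd y, k1, k2]

lemma numCubes_prod {K : Set (Cube S)} {L : Set (Cube T)} {Γ : Subgroup (space K ≃ₜ space K)}
    {Δ : Subgroup (space L ≃ₜ space L)} {R : Finset (Cube S)} {R' : Finset (Cube T)}
    (hR : IsReps K Γ R) (hR' : IsReps L Δ R') :
    numCubes (prod K L) (prodSub Γ Δ) (prodReps R R') = numCubes K Γ R * numCubes L Δ R' := by
  unfold numCubes
  rw [sum_prodReps, Finset.sum_mul]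
  refine Finset.sum_congr rfl fun a ha => ?_
  rw [Finset.mul_sum]
  refine Finset.sum_congr rfl fun b hb => ?_
  rw [ncard_stab_prod Γ Δ (mk_mem (hR.1 a ha) (hR'.1 b hb)), fst_mk, snd_mk]
  push_cast
  rw [div_mul_div_comm, one_mul]

lemma l2Betti_prod {n m i j : ℕ} {K : Set (Cube S)} {L : Set (Cube T)}
    {Γ : Subgroup (space K ≃ₜ space K)} {Δ : Subgroup (space L ≃ₜ space L)} (hK : GMan n K Γ)
    (hL : GMan m L Δ) {R : Finset (Cube S)} {R' : Finset (Cube T)}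
    (hR : IsReps K Γ R) (hR' : IsReps L Δ R') :
    l2Betti K Γ R i * l2Betti L Δ R' j ≤
      l2Betti (prod K L) (prodSub Γ Δ) (prodReps R R') (i + j) := by
  unfold l2Betti
  rw [sum_prodReps, Finset.sum_mul]
  refine Finset.sum_le_sum fun a ha => ?_
  rw [Finset.mul_sum]
  refine Finset.sum_le_sum fun b hb => ?_
  rw [ncard_stab_prod Γ Δ (mk_mem (hR.1 a ha) (hR'.1 b hb)), fst_mk, snd_mk, div_mul_div_comm]
  push_cast
  exact div_le_div_of_nonneg_right (rho_mul_le hK hL a b) (by positivity)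

end Pool.Agent.W5h6.AM
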