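import Pool.Agent.W5h6.AM.Prod

set_option autoImplicit false
set_option linter.unusedSectionVars false

open Topology
open scoped NNReal

namespace Pool.Agent.W5h6.AM

variable {S T : Type} [LinearOrder S] [LinearOrder T]

lemma mem_space {K : Set (Cube S)} {x : S → ℝ} : x ∈ space K ↔ ∃ c ∈ K, x ∈ c.carrier := by
  simp [space]

lemma mem_space_prod {K : Set (Cube S)} {L : Set (Cube T)} {x : S ⊕ₗ T → ℝ} :
    x ∈ space (prod K L) ↔ (fun s => x (il s)) ∈ space K ∧ (fun t => x (ir t)) ∈ space L := by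
  rw [mem_space, mem_space, mem_space]
  constructor
  · rintro ⟨c, hc, hx⟩
    rw [mem_carrier_iff] at hx
    exact ⟨⟨_, hc.1, hx.1⟩, ⟨_, hc.2, hx.2⟩⟩
  · rintro ⟨⟨c, hc, hx⟩, ⟨d, hd, hy⟩⟩
    refine ⟨mk c d, mk_mem hc hd, ?_⟩
    rw [mem_carrier_iff, fst_mk, snd_mk]
    exact ⟨hx, hy⟩

/-- glue two functions -/
def glue (x : S → ℝ) (y : T → ℝ) : S ⊕ₗ T → ℝ := fun p => Sum.elim x y (ofLex p)

lemma glue_il (x : S → ℝ) (y : T → ℝ) (s : S) : glue x y (il s) = x s := rfl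
lemma glue_ir (x : S → ℝ) (y : T → ℝ) (t : T) : glue x y (ir t) = y t := rfl
lemma glue_eta (x : S ⊕ₗ T → ℝ) : glue (fun s => x (il s)) (fun t => x (ir t)) = x := by
  funext p
  rcases cases_lex p with ⟨s, rfl⟩ | ⟨t, rfl⟩ <;> rfl

/-- The homeomorphism `e` of the product is the product of `g` and `h`: `e (x, y) = (g x, h y)`. -/
def IsProdMap {K : Set (Cube S)} {L : Set (Cube T)} (g : Homeo K) (h : Homeo L)
    (e : Homeo (prod K L)) : Prop :=
  ∀ (x : space K) (y : space L) (z : space (prod K L)), z.1 = glue x.1 y.1 →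
    at' e z = glue (at' g x) (at' h y)

/-- The group `Λ` consists of the products of the elements of `Γ` and of `Δ`. -/
def IsProd {K : Set (Cube S)} {L : Set (Cube T)} (Γ : Grp K) (Δ : Grp L) (Λ : Grp (prod K L)) :
    Prop := ∀ e, InGroup Λ e ↔ ∃ g h, InGroup Γ g ∧ InGroup Δ h ∧ IsProdMap g h e

lemma continuous_glue : Continuous fun z : (S → ℝ) × (T → ℝ) => glue z.1 z.2 := by
  apply continuous_pi
  intro p
  rcases cases_lex p with ⟨s, rfl⟩ | ⟨t, rfl⟩
  · exact (continuous_apply s).comp continuous_fst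
  · exact (continuous_apply t).comp continuous_snd

/-- the space of the product -/
def Phi (K : Set (Cube S)) (L : Set (Cube T)) : space (prod K L) ≃ₜ space K × space L where
  toFun z := (⟨fun s => z.1 (il s), (mem_space_prod.1 z.2).1⟩,
    ⟨fun t => z.1 (ir t), (mem_space_prod.1 z.2).2⟩)
  invFun z := ⟨glue z.1.1 z.2.1, mem_space_prod.2 ⟨z.1.2, z.2.2⟩⟩
  left_inv z := Subtype.ext (glue_eta z.1)
  right_inv z := rfl
  continuous_toFun := by
    have h : Continuous fun z : space (prod K L) => (z : S ⊕ₗ T → ℝ) := continuous_subtype_val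
    refine Continuous.prodMk ?_ ?_
    · exact Continuous.subtype_mk (continuous_pi fun s => (continuous_apply (il s)).comp h) _
    · exact Continuous.subtype_mk (continuous_pi fun s => (continuous_apply (ir s)).comp h) _
  continuous_invFun := by
    refine Continuous.subtype_mk ?_ _
    exact continuous_glue.comp ((continuous_subtype_val.comp continuous_fst).prodMk
      (continuous_subtype_val.comp continuous_snd))

/-- the product of two homeomorphisms -/
def prodHom (K : Set (Cube S)) (L : Set (Cube T)) :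
    (space K ≃ₜ space K) × (space L ≃ₜ space L) →* (space (prod K L) ≃ₜ space (prod K L)) where
  toFun g := (Phi K L).trans ((g.1.prodCongr g.2).trans (Phi K L).symm)
  map_one' := by
    ext z : 1
    exact (Phi K L).symm_apply_apply z
  map_mul' g h := by
    ext z : 1
    show (Phi K L).symm ((g.1 * h.1).prodCongr (g.2 * h.2) (Phi K L z)) =
      (Phi K L).symm (g.1.prodCongr g.2 (Phi K L ((Phi K L).symm (h.1.prodCongr h.2 (Phi K L z)))))
    rw [(Phi K L).apply_symm_apply]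
    rfl

lemma prodHom_apply {K : Set (Cube S)} {L : Set (Cube T)} (g : space K ≃ₜ space K)
    (h : space L ≃ₜ space L) (z : space (prod K L)) :
    ((prodHom K L (g, h) z : space (prod K L)) : S ⊕ₗ T → ℝ) =
      glue (g (Phi K L z).1) (h (Phi K L z).2) := rfl

lemma img_prodHom {K : Set (Cube S)} {L : Set (Cube T)} (g : space K ≃ₜ space K)
    (h : space L ≃ₜ space L) (c : Cube (S ⊕ₗ T)) (y : S ⊕ₗ T → ℝ) :
    y ∈ img (prodHom K L (g, h)) c ↔
      (fun s => y (il s)) ∈ img g (fst c) ∧ (fun t => y (ir t)) ∈ img h (snd c) := by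
  constructor
  · rintro ⟨z, hz, rfl⟩
    rw [mem_carrier_iff] at hz
    exact ⟨⟨(Phi K L z).1, hz.1, rfl⟩, ⟨(Phi K L z).2, hz.2, rfl⟩⟩
  · rintro ⟨⟨a, ha, hya⟩, ⟨b, hb, hyb⟩⟩
    refine ⟨(Phi K L).symm (a, b), ?_, ?_⟩
    · rw [mem_carrier_iff]
      exact ⟨ha, hb⟩
    · unfold at' at hya hyb ⊢
      rw [prodHom_apply, (Phi K L).apply_symm_apply]
      rw [← glue_eta y, ← hya, ← hyb]

lemma img_nonempty {K : Set (Cube S)} (g : space K ≃ₜ space K) {c : Cube S} (hc : c ∈ K) :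
    (img g c).Nonempty := by
  have hx : (fun s => (c.base s : ℝ)) ∈ space K := mem_space.2 ⟨c, hc, carrier_nonempty c⟩
  exact ⟨_, ⟨⟨_, hx⟩, carrier_nonempty c, rfl⟩⟩

lemma img_prod_eq {K : Set (Cube S)} {L : Set (Cube T)} (g : space K ≃ₜ space K)
    (h : space L ≃ₜ space L) (c d : Cube (S ⊕ₗ T)) (hc : c ∈ prod K L) :
    img (prodHom K L (g, h)) c = d.carrier ↔
      img g (fst c) = (fst d).carrier ∧ img h (snd c) = (snd d).carrier := by
  constructor
  · intro he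
    obtain ⟨y1, hy1⟩ := img_nonempty g hc.1
    obtain ⟨y2, hy2⟩ := img_nonempty h hc.2
    have key : ∀ a b, (a ∈ img g (fst c) ∧ b ∈ img h (snd c)) ↔
        (a ∈ (fst d).carrier ∧ b ∈ (snd d).carrier) := by
      intro a b
      have h1 := img_prodHom g h c (glue a b)
      rw [he, mem_carrier_iff] at h1
      exact h1.symm
    have h12 := (key y1 y2).1 ⟨hy1, hy2⟩
    constructor
    · ext a
      exact ⟨fun ha => ((key a y2).1 ⟨ha, hy2⟩).1, fun ha => ((key a y2).2 ⟨ha, h12.2⟩).1⟩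
    · ext b
      exact ⟨fun hb => ((key y1 b).1 ⟨hy1, hb⟩).2, fun hb => ((key y1 b).2 ⟨h12.1, hb⟩).2⟩
  · rintro ⟨h1, h2⟩
    ext y
    rw [img_prodHom, h1, h2, mem_carrier_iff]

lemma prodHom_inj {K : Set (Cube S)} {L : Set (Cube T)} (hK : (space K).Nonempty)
    (hL : (space L).Nonempty) : Function.Injective (prodHom K L) := by
  obtain ⟨a, ha⟩ := hK
  obtain ⟨b, hb⟩ := hL
  rintro ⟨g, h⟩ ⟨g', h'⟩ he
  have key : ∀ (x : space K) (y : space L), g x = g' x ∧ h y = h' y := by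
    intro x y
    have h1 := congrArg (fun e : space (prod K L) ≃ₜ space (prod K L) =>
      Phi K L (e ((Phi K L).symm (x, y)))) he
    have h2 : ∀ (g : space K ≃ₜ space K) (h : space L ≃ₜ space L),
        Phi K L (prodHom K L (g, h) ((Phi K L).symm (x, y))) = (g x, h y) := by
      intro g h
      show Phi K L ((Phi K L).symm (g.prodCongr h (Phi K L ((Phi K L).symm (x, y))))) = _
      rw [(Phi K L).apply_symm_apply, (Phi K L).apply_symm_apply]
      rfl
    simp only [h2] at h1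
    exact Prod.ext_iff.1 h1
  refine Prod.ext ?_ ?_
  · ext x : 1
    exact (key x ⟨b, hb⟩).1
  · ext y : 1
    exact (key ⟨a, ha⟩ y).2

/-- the product of two groups -/
def prodSub {K : Set (Cube S)} {L : Set (Cube T)} (Γ : Subgroup (space K ≃ₜ space K))
    (Δ : Subgroup (space L ≃ₜ space L)) : Subgroup (space (prod K L) ≃ₜ space (prod K L)) :=
  (Γ.prod Δ).map (prodHom K L)

lemma mem_prodSub {K : Set (Cube S)} {L : Set (Cube T)} {Γ : Subgroup (space K ≃ₜ space K)}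
    {Δ : Subgroup (space L ≃ₜ space L)} {e : space (prod K L) ≃ₜ space (prod K L)} :
    e ∈ prodSub Γ Δ ↔ ∃ g ∈ Γ, ∃ h ∈ Δ, prodHom K L (g, h) = e := by
  unfold prodSub
  rw [Subgroup.mem_map]
  constructor
  · rintro ⟨⟨g, h⟩, hm, he⟩
    rw [Subgroup.mem_prod] at hm
    exact ⟨g, hm.1, h, hm.2, he⟩
  · rintro ⟨g, hg, h, hh, he⟩
    exact ⟨(g, h), Subgroup.mem_prod.2 ⟨hg, hh⟩, he⟩

lemma isProdMap_prodHom {K : Set (Cube S)} {L : Set (Cube T)} (g : space K ≃ₜ space K)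
    (h : space L ≃ₜ space L) : IsProdMap g h (prodHom K L (g, h)) := by
  intro x y z hz
  have hx : (Phi K L z).1 = x := Subtype.ext (funext fun s => by
    show z.1 (il s) = x.1 s
    rw [hz]; rfl)
  have hy : (Phi K L z).2 = y := Subtype.ext (funext fun s => by
    show z.1 (ir s) = y.1 s
    rw [hz]; rfl)
  unfold at'
  rw [prodHom_apply, hx, hy]

lemma isProdMap_iff {K : Set (Cube S)} {L : Set (Cube T)} (g : space K ≃ₜ space K)
    (h : space L ≃ₜ space L) (e : space (prod K L) ≃ₜ space (prod K L)) :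
    IsProdMap g h e ↔ prodHom K L (g, h) = e := by
  constructor
  · intro he
    ext z : 2
    have h0 : z.1 = glue (Phi K L z).1.1 (Phi K L z).2.1 := (glue_eta z.1).symm
    have h1 := he _ _ z h0
    have h2 := isProdMap_prodHom g h _ _ z h0
    exact h2.trans h1.symm
  · rintro rfl
    exact isProdMap_prodHom g h

lemma isProd_iff {K : Set (Cube S)} {L : Set (Cube T)} {Γ : Subgroup (space K ≃ₜ space K)}
    {Δ : Subgroup (space L ≃ₜ space L)} {Λ : Subgroup (space (prod K L) ≃ₜ space (prod K L))} :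
    IsProd Γ Δ Λ ↔ Λ = prodSub Γ Δ := by
  have key : ∀ e, (∃ g h, InGroup Γ g ∧ InGroup Δ h ∧ IsProdMap g h e) ↔ e ∈ prodSub Γ Δ := by
    intro e
    constructor
    · rintro ⟨g, h, hg, hh, he⟩
      exact mem_prodSub.2 ⟨g, hg, h, hh, (isProdMap_iff g h e).1 he⟩
    · intro he
      obtain ⟨g, hg, h, hh, he⟩ := mem_prodSub.1 he
      exact ⟨g, h, hg, hh, (isProdMap_iff g h e).2 he⟩
  constructor
  · intro h
    ext e
    exact (h e).trans (key e)
  · rintro rfl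
    intro e
    exact (key e).symm

lemma stab_prod {K : Set (Cube S)} {L : Set (Cube T)} (Γ : Subgroup (space K ≃ₜ space K))
    (Δ : Subgroup (space L ≃ₜ space L)) {c : Cube (S ⊕ₗ T)} (hc : c ∈ prod K L) :
    stab (prodSub Γ Δ) c = prodHom K L '' (stab Γ (fst c) ×ˢ stab Δ (snd c)) := by
  ext e
  constructor
  · rintro ⟨he, hi⟩
    obtain ⟨g, hg, h, hh, rfl⟩ := mem_prodSub.1 he
    rw [img_prod_eq g h c c hc] at hi
    exact ⟨(g, h), ⟨⟨hg, hi.1⟩, ⟨hh, hi.2⟩⟩, rfl⟩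
  · rintro ⟨⟨g, h⟩, ⟨⟨hg, h1⟩, ⟨hh, h2⟩⟩, rfl⟩
    exact ⟨mem_prodSub.2 ⟨g, hg, h, hh, rfl⟩, (img_prod_eq g h c c hc).2 ⟨h1, h2⟩⟩

lemma ncard_stab_prod {K : Set (Cube S)} {L : Set (Cube T)} (Γ : Subgroup (space K ≃ₜ space K))
    (Δ : Subgroup (space L ≃ₜ space L)) {c : Cube (S ⊕ₗ T)} (hc : c ∈ prod K L) :
    (stab (prodSub Γ Δ) c).ncard = (stab Γ (fst c)).ncard * (stab Δ (snd c)).ncard := by
  rw [stab_prod Γ Δ hc, Set.ncard_image_of_injective _ (prodHom_inj
    ⟨_, mem_space.2 ⟨_, hc.1, carrier_nonempty _⟩⟩ ⟨_, mem_space.2 ⟨_, hc.2, carrier_nonempty _⟩⟩),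
    Set.ncard_prod]

theorem gman_prod {n m : ℕ} {K : Set (Cube S)} {L : Set (Cube T)}
    {Γ : Subgroup (space K ≃ₜ space K)} {Δ : Subgroup (space L ≃ₜ space L)} (hK : GMan n K Γ)
    (hL : GMan m L Δ) : GMan (n + m) (prod K L) (prodSub Γ Δ) := by
  refine ⟨?_, ?_, ?_, ?_, ?_, ?_, ?_⟩
  · intro c hc p hp
    rcases cases_lex p with ⟨s, rfl⟩ | ⟨t, rfl⟩
    · have h := hK.faces _ hc.1 s ((mem_fst c s).2 hp)
      refine ⟨⟨?_, ?_⟩, ⟨?_, ?_⟩⟩
      · rw [fst_face0_il]; exact h.1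
      · rw [snd_face0_il]; exact hc.2
      · rw [fst_face1_il]; exact h.2
      · rw [snd_face1_il]; exact hc.2
    · have h := hL.faces _ hc.2 t ((mem_snd c t).2 hp)
      refine ⟨⟨?_, ?_⟩, ⟨?_, ?_⟩⟩
      · rw [fst_face0_ir]; exact hc.1
      · rw [snd_face0_ir]; exact h.1
      · rw [fst_face1_ir]; exact hc.1
      · rw [snd_face1_ir]; exact h.2
  · intro x hx
    rw [mem_space_prod] at hx
    obtain ⟨U, hU, hUf⟩ := hK.locFin _ hx.1
    obtain ⟨V, hV, hVf⟩ := hL.locFin _ hx.2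
    refine ⟨(fun y : S ⊕ₗ T → ℝ => fun s => y (il s)) ⁻¹' U ∩
      (fun y : S ⊕ₗ T → ℝ => fun t => y (ir t)) ⁻¹' V, ?_, ?_⟩
    · apply Filter.inter_mem
      · exact (continuous_pi fun s => continuous_apply (il s)).continuousAt.preimage_mem_nhds hU
      · exact (continuous_pi fun s => continuous_apply (ir s)).continuousAt.preimage_mem_nhds hV
    · have := (hUf.prod hVf).image (fun z : Cube S × Cube T => mk z.1 z.2)
      apply this.subset
      rintro c ⟨hc, y, hy1, hy2⟩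
      rw [mem_carrier_iff] at hy1
      exact ⟨(fst c, snd c), ⟨⟨hc.1, _, hy1.1, hy2.1⟩, ⟨hc.2, _, hy1.2, hy2.2⟩⟩, mk_fst_snd c⟩
  · intro z
    obtain ⟨e1, h1⟩ := hK.mfd (Phi K L z).1
    obtain ⟨e2, h2⟩ := hL.mfd (Phi K L z).2
    refine ⟨((Phi K L).transOpenPartialHomeomorph (e1.prod e2)).transHomeomorph
      (Fin.appendHomeomorph n m), ?_⟩
    exact ⟨h1, h2⟩
  · have := hK.contr
    have := hL.contr
    exact (Phi K L).contractibleSpace
  · intro e he c hc
    obtain ⟨g, hg, h, hh, rfl⟩ := mem_prodSub.1 he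
    obtain ⟨c', hc', e1⟩ := hK.cubes g hg _ hc.1
    obtain ⟨d', hd', e2⟩ := hL.cubes h hh _ hc.2
    refine ⟨mk c' d', mk_mem hc' hd', ?_⟩
    rw [img_prod_eq g h c _ hc, fst_mk, snd_mk]
    exact ⟨e1, e2⟩
  · intro c hc
    rw [stab_prod Γ Δ hc]
    exact ((hK.proper _ hc.1).prod (hL.proper _ hc.2)).image _
  · obtain ⟨F, hF, hFK, h3⟩ := hK.cocompact
    obtain ⟨E, hE, hEL, k3⟩ := hL.cocompact
    refine ⟨(fun z : Cube S × Cube T => mk z.1 z.2) '' (F ×ˢ E), (hF.prod hE).image _, ?_, ?_⟩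
    · rintro _ ⟨⟨a, b⟩, ⟨ha, hb⟩, rfl⟩
      exact mk_mem (hFK ha) (hEL hb)
    · intro c hc
      obtain ⟨c₀, hc₀, g, hg, e1⟩ := h3 _ hc.1
      obtain ⟨d₀, hd₀, h, hh, e2⟩ := k3 _ hc.2
      refine ⟨mk c₀ d₀, ⟨(c₀, d₀), ⟨hc₀, hd₀⟩, rfl⟩, prodHom K L (g, h),
        mem_prodSub.2 ⟨g, hg, h, hh, rfl⟩, ?_⟩
      ext y
      rw [img_prodHom, fst_mk, snd_mk, e1, e2, mem_carrier_iff]

end Pool.Agent.W5h6.AM
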